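import Pool.Agent.H38.MR.Tb
import Pool.Agent.H36.GM.Nr
import Pool.Agent.H36.O2.Oi
import Pool.Agent.H30.OR.Tg

/-!
ROW Tc (project MP_78d38b_MQ, helper38, about 150 lines): primes of type three (inert in the cubic field) with given Legendre classes.

PROOF. As the end of `H36GM.exists_q3` and `H36GM.arith` (Pool/Agent/H36/GM/Bz.lean, Bc.lean; here `N = M = K`, only the fields `nr` and `la` are needed).
`exists_N2 (N := K)` (Pool/Agent/H36/GM/Nt.lean; `S.dsq`; no root in `K`: `S.cub`, a root `t` would contradict `S.cub`, see `noroot_N` or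
`Cub`-lemmas) gives `N2`, `D : N2D K K N2 a b r`. `A, B : 𝓞 K` with `(A : K) = a`, `(B : K) = b`: `H30OR.Lt_int S.ha`, `Lt_int S.hb`. For `c ∈ B₀` choose `rb c : 𝓞 K` nonzero with
`sc (rb c) = c` (`H76OD.exists_irep`), `β := hB.toFinset.image rb`. `H76OD.exists_fieldM (K := K) N2 (β.image ..)` gives `E`, `s`. `tau3` gives `τ`.
The roots `rE j : 𝓞 E` (integral: `r j` is a root of a monic polynomial over `𝓞 K`). `S₁ : Finset (𝓞 E)` := {2, the differences `rE j - rE j'`, the images of `β`}.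
`choose_frob τ S₁ _ hA₀` gives `g`, `W` with `zpowers g = zpowers τ`, `IsArithFrobAt (𝓞 K) g W.asIdeal`. `q := dn K W`.
`H36GM.noroot_q` for `g`: `g` permutes the roots without fixed point (`g = τ ^ j`, `τ = g ^ i`: if `g (r m) = r m` then `τ (r m) = r m`). So no `t : 𝓞 K` with
`t^3 + A t + B ∈ q.asIdeal`; `NoRootAt q a b` as at the end of the proof of `H30OR.loc_all` (Pool/Agent/H30/OR/Tg.lean), and `H36O2.Oi_nb`, `nb_ge1` give `nb K L q = 1`.
`H30MQ.la_of_frob` with `g (s d) = ± s d` (`H30MQ.same_sign` for `zpowers g = zpowers τ`) gives `la q (sc d) = φ (sc d)`. `OddP q`: `2 ∉ q`.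
-/

set_option autoImplicit false
set_option linter.unusedSectionVars false
open scoped Classical

open WithZero NumberField IsDedekindDomain H38RT
open H38T1 (SC sc scu rep eo la si OddP)
open H76PP (Cub LC ev scm dn)
open H30ZO (nb)
open H88OD H26OD H76GM H36GM

namespace H38MR

theorem Tc_int {K : Type} [Field K] [NumberField K] {a : K}
    (ha : ∀ v : HeightOneSpectrum (𝓞 K), v.valuation K a ≤ 1) : ∃ A : 𝓞 K, (A : K) = a :=
  HeightOneSpectrum.mem_integers_of_valuation_le_one K a ha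

theorem Tc_noroot {K L : Type} [Field K] [Field L] [Algebra K L] {A B : K} {θ : L}
    (h : Cub K L A B θ) (t : K) : t ^ 3 + A * t + B ≠ 0 := by
  intro ht
  have h1 := h.root
  have h3 := congrArg (algebraMap K L) ht
  simp only [map_add, map_mul, map_pow, map_zero] at h3
  have h2 : (θ - algebraMap K L t) * (algebraMap K L (t ^ 2 + A) + algebraMap K L t * θ +
      algebraMap K L 1 * θ ^ 2) = 0 := by
    simp only [map_add, map_pow, map_one]
    linear_combination h1 - h3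
  rcases mul_eq_zero.1 h2 with h4 | h4
  · have h5 := (h.li (-t) 1 0 (by
      rw [map_neg, map_one, map_zero]
      linear_combination h4)).2.1
    exact one_ne_zero h5
  · exact one_ne_zero (h.li _ _ _ h4).2.2

/-- The splitting field of the cubic, with one algebra structure. -/
theorem Tc_N2 {K L : Type} [Field K] [NumberField K] [Field L] [Algebra K L] {A B : K} {θ : L}
    (h : Cub K L A B θ) (hsq : ¬ IsSquare (-(4 * A ^ 3 + 27 * B ^ 2))) :
    ∃ (N2 : Type) (_ : Field N2) (_ : NumberField N2) (_ : Algebra K N2) (r : Fin 3 → N2),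
      N2D K K N2 A B r := by
  obtain ⟨N2, i1, i2, i3, i4, i5, r, D⟩ := exists_N2 (K := K) (N := K) (a := A) (b := B)
    (fun t => Tc_noroot h t) hsq
  have hext : i4 = i3 := by
    apply Algebra.algebra_ext
    intro x
    exact (@IsScalarTower.algebraMap_apply K K N2 _ _ _ _ i4 i3 i5 x).symm
  subst hext
  exact ⟨N2, i1, i2, i4, r, D⟩

theorem Tc_root_int {K E : Type} [Field K] [NumberField K] [Field E] [NumberField E] [Algebra K E]
    {A B : 𝓞 K} {y : E} (hy : y ^ 3 + algebraMap K E (A : K) * y + algebraMap K E (B : K) = 0) :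
    IsIntegral ℤ y := by
  have h1 : IsIntegral (𝓞 K) y := by
    refine ⟨Polynomial.X ^ 3 + Polynomial.C A * Polynomial.X + Polynomial.C B, ?_, ?_⟩
    · monicity!
    · simp only [Polynomial.eval₂_add, Polynomial.eval₂_mul, Polynomial.eval₂_pow,
        Polynomial.eval₂_X, Polynomial.eval₂_C]
      exact hy
  exact isIntegral_trans y h1

theorem Tc_NoRootAt {K : Type} [Field K] [NumberField K] {v : HeightOneSpectrum (𝓞 K)} {A B : 𝓞 K}
    (H : ∀ t : 𝓞 K, t ^ 3 + A * t + B ∉ v.asIdeal) : H73P2.NoRootAt v (A : K) (B : K) := by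
  have hA : v.valuation K (A : K) ≤ 1 := v.valuation_le_one A
  have hB : v.valuation K (B : K) ≤ 1 := v.valuation_le_one B
  refine ⟨1, A, B, one_ne_zero, by ring, by ring, hA, hB, fun t ht => ?_⟩
  obtain ⟨t', ht'⟩ := H76PP.Tf_approx v ht
  have h4 : v.valuation K (((t' ^ 3 + A * t' + B : 𝓞 K) : K)) = 1 :=
    (v.valuation_eq_one_iff_notMem (K := K)).2 (H t')
  have e1 : ((t' ^ 3 + A * t' + B : 𝓞 K) : K) = (t' : K) ^ 3 + (A : K) * (t' : K) + (B : K) := by
    change algebraMap (𝓞 K) K _ = _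
    simp only [map_add, map_mul, map_pow]
  have h5 : v.valuation K ((t' : K) ^ 3 + (A : K) * (t' : K) + (B : K)) = 1 :=
    (congrArg (v.valuation K) e1).symm.trans h4
  have e2 : t ^ 3 + (A : K) * t + (B : K) = ((t' : K) ^ 3 + (A : K) * (t' : K) + (B : K)) +
      (t - (t' : K)) * (t ^ 2 + t * (t' : K) + (t' : K) ^ 2 + (A : K)) := by ring
  have ht1 : v.valuation K (t' : K) ≤ 1 := v.valuation_le_one t'
  have h6 : v.valuation K
      ((t - (t' : K)) * (t ^ 2 + t * (t' : K) + (t' : K) ^ 2 + (A : K))) < 1 := by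
    rw [map_mul]
    refine mul_lt_one_of_lt_of_le ht' (Valuation.map_add_le _ (Valuation.map_add_le _
      (Valuation.map_add_le _ ?_ ?_) ?_) hA)
    · rw [map_pow]
      exact pow_le_one₀ zero_le ht
    · rw [map_mul]
      exact mul_le_one₀ ht zero_le ht1
    · rw [map_pow]
      exact pow_le_one₀ zero_le ht1
  rw [e2, Valuation.map_add_eq_of_lt_left _ (by rw [h5]; exact h6), h5]

theorem exists_three {K L : Type} [Field K] [NumberField K] [Field L] [NumberField L]
    [Algebra K L] {a b : K} {θ : L} (S : H88OD.Ext K K L a b θ) (φ : SC K →+ ZMod 2)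
    (hφ : φ (sc (-(4 * a ^ 3 + 27 * b ^ 2))) = 0) {B₀ : Set (SC K)} (hB : B₀.Finite)
    {A₀ : Set (HeightOneSpectrum (𝓞 K))} (hA₀ : A₀.Finite) :
    ∃ q : HeightOneSpectrum (𝓞 K), q ∉ A₀ ∧ nb K L q = 1 ∧ ∀ β ∈ B₀, la q β = φ β := by
  obtain ⟨A, rfl⟩ := Tc_int S.ha
  obtain ⟨B, rfl⟩ := Tc_int S.hb
  have hcub : Cub K L (A : K) (B : K) θ := S.cub
  obtain ⟨N2, _, _, _, r, D⟩ := Tc_N2 hcub S.dsq
  choose rb hrb0 hrb using (fun c : SC K => H76OD.exists_irep c)
  obtain ⟨β, hβ⟩ : ∃ β : Finset (𝓞 K), β = hB.toFinset.image rb := ⟨_, rfl⟩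
  have hβ0 : ∀ d ∈ β, d ≠ 0 := by
    intro d hd
    rw [hβ, Finset.mem_image] at hd
    obtain ⟨c, -, rfl⟩ := hd
    exact hrb0 c
  obtain ⟨E, _, _, _, _, _, _, s, hs⟩ := H76OD.exists_fieldM (K := K) N2
    (β.image (algebraMap (𝓞 K) (𝓞 N2)))
  have hsβ : ∀ d ∈ β, s (algebraMap (𝓞 K) (𝓞 N2) d) ^ 2 = algebraMap K E (d : K) := by
    intro d hd
    rw [hs _ (Finset.mem_image_of_mem _ hd)]
    exact (IsScalarTower.algebraMap_apply K N2 E (d : K)).symm
  obtain ⟨τ, hτr, hτs⟩ := tau3 D φ hφ β hβ0 s hsβ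
  -- the roots in `E`
  have hroot : ∀ j, (algebraMap N2 E (r j)) ^ 3 + algebraMap K E (A : K) * algebraMap N2 E (r j) +
      algebraMap K E (B : K) = 0 := by
    intro j
    have h1 := D.roots (r j)
    have h2 : (r j - r 0) * (r j - r 1) * (r j - r 2) = 0 := by
      fin_cases j <;> simp
    have h3 := congrArg (algebraMap N2 E) (h1.trans h2)
    simp only [map_add, map_mul, map_pow, map_zero, ← IsScalarTower.algebraMap_apply K N2 E] at h3
    exact h3
  obtain ⟨rE, hrE'⟩ : ∃ rE : Fin 3 → 𝓞 E, ∀ j, (rE j : E) = algebraMap N2 E (r j) :=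
    ⟨fun j => ⟨algebraMap N2 E (r j), Tc_root_int (hroot j)⟩, fun j => rfl⟩
  have hrne : ∀ j j', j ≠ j' → rE j - rE j' ≠ 0 := by
    intro j j' hjj h
    have h1 : (rE j : E) - (rE j' : E) = 0 := by
      have h2 := congrArg (fun x : 𝓞 E => (x : E)) h
      exact h2
    rw [hrE', hrE', ← map_sub] at h1
    have h2 := (map_eq_zero (algebraMap N2 E)).1 h1
    exact hjj (D.inj (sub_eq_zero.1 h2))
  obtain ⟨S₁, hS⟩ : ∃ S₁ : Finset (𝓞 E), S₁ = {(2 : 𝓞 E)} ∪
      (((Finset.univ : Finset (Fin 3 × Fin 3)).filter fun p => p.1 ≠ p.2).image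
        fun p => rE p.1 - rE p.2) ∪ β.image (algebraMap (𝓞 K) (𝓞 E)) := ⟨_, rfl⟩
  have hinjK : ∀ d : 𝓞 K, d ≠ 0 → algebraMap (𝓞 K) (𝓞 E) d ≠ 0 := by
    intro d hd h
    apply hd
    apply RingOfIntegers.ext
    have h5 : algebraMap K E (d : K) = 0 := by
      have h6 := congrArg (fun z : 𝓞 E => (z : E)) h
      exact h6
    exact (map_eq_zero (algebraMap K E)).1 h5
  have hS0 : ∀ x ∈ S₁, x ≠ 0 := by
    intro x hx
    rw [hS] at hx
    simp only [Finset.mem_union, Finset.mem_singleton, Finset.mem_image,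
      Finset.mem_filter, Finset.mem_univ, true_and] at hx
    rcases hx with ((rfl | ⟨p, hp, rfl⟩) | ⟨d, hd, rfl⟩)
    · exact two_ne_zero
    · exact hrne _ _ hp
    · exact hinjK d (hβ0 d hd)
  obtain ⟨g, W, hg, hfr, hWA, hWS⟩ := choose_frob τ S₁ hS0 hA₀
  have h2W : (2 : 𝓞 E) ∉ W.asIdeal := hWS _ (by rw [hS]; simp)
  have hrW : ∀ j j', j ≠ j' → rE j - rE j' ∉ W.asIdeal := by
    intro j j' hjj
    refine hWS _ ?_
    rw [hS]
    simp only [Finset.mem_union, Finset.mem_image, Finset.mem_filter, Finset.mem_univ, true_and]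
    exact Or.inl (Or.inr ⟨(j, j'), hjj, rfl⟩)
  have hβW : ∀ d ∈ β, algebraMap (𝓞 K) (𝓞 E) d ∉ W.asIdeal := by
    intro d hd
    refine hWS _ ?_
    rw [hS]
    simp only [Finset.mem_union, Finset.mem_image]
    exact Or.inr ⟨d, hd, rfl⟩
  have ht3 : ∀ m, τ (τ (τ (algebraMap N2 E (r m)))) = algebraMap N2 E (r m) := by
    intro m
    rw [hτr, hτr, hτr]
    have h : m + 1 + 1 + 1 = m := by
      revert m
      decide
    rw [h]
  have hcase := cases3 hg (x0 := algebraMap N2 E (r 0)) (ht3 0) (by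
    rw [hτr]
    intro h
    have h1 := D.inj ((algebraMap N2 E).injective h)
    revert h1
    decide)
  obtain ⟨π, hπ, hgr⟩ : ∃ π : Fin 3 → Fin 3, (∀ j, π j ≠ j) ∧
      ∀ j, g (rE j : E) = (rE (π j) : E) := by
    rcases hcase with h | h
    · refine ⟨fun j => j + 1, by decide, fun j => ?_⟩
      rw [hrE', hrE', h _ (ht3 j), hτr]
    · refine ⟨fun j => j + 1 + 1, by decide, fun j => ?_⟩
      rw [hrE', hrE', h _ (ht3 j), hτr, hτr]
  have hrootsE : ∀ x : 𝓞 E, x ^ 3 + algebraMap (𝓞 K) (𝓞 E) A * x + algebraMap (𝓞 K) (𝓞 E) B =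
      (x - rE 0) * (x - rE 1) * (x - rE 2) := by
    intro x
    apply RingOfIntegers.ext
    change (x : E) ^ 3 + algebraMap K E (A : K) * (x : E) + algebraMap K E (B : K) =
      ((x : E) - (rE 0 : E)) * ((x : E) - (rE 1 : E)) * ((x : E) - (rE 2 : E))
    rw [hrE', hrE', hrE']
    obtain ⟨hs1, hs2, hs3⟩ := roots_sym D
    have t1 := congrArg (algebraMap N2 E) hs1
    have t2 := congrArg (algebraMap N2 E) hs2
    have t3 := congrArg (algebraMap N2 E) hs3
    simp only [map_add, map_mul, map_neg, map_zero, ← IsScalarTower.algebraMap_apply K N2 E] at t1 t2 t3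
    linear_combination (x : E) ^ 2 * t1 - (x : E) * t2 + t3
  have hnr := noroot_q hfr hrootsE hπ hgr hrW
  have hno := Tc_NoRootAt hnr
  have hnb := H36O2.Oi_nb hcub hno
  have hnb1 := H30OR.nb_ge1 K L (dn K W)
  refine ⟨dn K W, hWA, by omega, ?_⟩
  intro c hc
  have hF : Pool.Agent.H42.PC.IsFr K E (dn K W) g := ⟨W, ⟨rfl⟩, hfr⟩
  have h2' : (2 : 𝓞 K) ∉ (dn K W).asIdeal := by
    intro h
    apply h2W
    have h5 : algebraMap (𝓞 K) (𝓞 E) 2 ∈ W.asIdeal := h
    rwa [map_ofNat] at h5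
  have hd : rb c ∈ β := by
    rw [hβ]
    exact Finset.mem_image_of_mem _ (hB.mem_toFinset.2 hc)
  have h6 := H30MQ.la_of_frob hF h2' (hβW _ hd) (hsβ _ hd) (e := φ (sc (rb c : K)))
    (H30MQ.same_sign hg (hτs _ hd))
  rwa [hrb] at h6

end H38MR
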