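import Pool.Agent.H38.MR.Ga
import Pool.Agent.H26.MQ.Nk
import Pool.Agent.H86.TL.Tr

/-!
MP_78d38b_MQ (helper38), N5: the twist of a state.
-/

set_option autoImplicit false
set_option linter.unusedSectionVars false
open scoped Classical

open WithZero NumberField IsDedekindDomain H38RT
open H38T1 (SC sc scu rep eo la si OddP)
open H76PP (Cub LC ev scm dn)
open H30ZO (HH nb Wc)
open H30OR (LocD)
open H88OD (Ext ClOk)
open H26MQ

namespace H38MR

variable {K L : Type} [Field K] [NumberField K] [Field L] [NumberField L] [Algebra K L] {a b : K}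
  {θ : L} {S : Ext K K L a b θ} {Sg : Finset (HeightOneSpectrum (𝓞 K))} {D0 : K} {J : Type}
  {d : J → K}

/-- The number of places above and the discriminant. -/
theorem la_disc (N : NT S Sg D0 d) {v : HeightOneSpectrum (𝓞 K)} (hv : v ∉ Sg) :
    (nb K L v : ZMod 2) = la v (sc (-(4 * a ^ 3 + 27 * b ^ 2))) + 1 := by
  obtain ⟨A, B, rfl, rfl⟩ := nk_int S
  obtain ⟨m, r, u, h1, -, h2⟩ := H30OR.loc_all (v := v) (show Cub K L (A : K) (B : K) θ from S.cub)
    (N.ok0.two v hv) (N.three v hv) (N.ok0.dis v hv) (D := 1) (E := N.pi v) one_ne_zero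
    (nk_even v) (N.pi0 v hv) (N.nk_pio hv)
  rw [h1, ← h2]
  push_cast
  rfl

theorem la_disc2 (N : NT S Sg D0 d) (q : Q2 K L Sg) :
    la q.1 (sc (-(4 * a ^ 3 + 27 * b ^ 2))) = 1 := by
  have h := la_disc N q.2.1
  rw [q.2.2] at h
  generalize la q.1 (sc (-(4 * a ^ 3 + 27 * b ^ 2))) = t at h ⊢
  revert h
  revert t
  decide

theorem la_disc3 (N : NT S Sg D0 d) (q : P3 K L Sg) :
    la q.1 (sc (-(4 * a ^ 3 + 27 * b ^ 2))) = 0 := by
  have h := la_disc N q.2.1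
  rw [q.2.2] at h
  generalize la q.1 (sc (-(4 * a ^ 3 + 27 * b ^ 2))) = t at h ⊢
  revert h
  revert t
  decide

/-- The local conditions at a place where the quotient of the twists is a square. -/
theorem Lv_tw (S : Ext K K L a b θ) {E E' : K} (hE : E ≠ 0) (hE' : E' ≠ 0)
    {v : HeightOneSpectrum (𝓞 K)} (h : IsSquare (algebraMap K (v.adicCompletion K) (E' / E)))
    (c : SC L) : S.Lv E v c ↔ S.Lv E' v c :=
  H76OD.Wc_tw_iff (algebraMap K (v.adicCompletion K)) hE hE' h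

theorem Lr_tw (S : Ext K K L a b θ) {E E' : K} (hE : E ≠ 0) (hE' : E' ≠ 0)
    {s : K →+* ℝ} (h : 0 < s (E' / E)) (c : SC L) : S.Lr E s c ↔ S.Lr E' s c :=
  H76OD.Wc_tw_real s hE hE' h

theorem ok_ne (N : NT S Sg D0 d) (j : J) : d j ≠ 0 := by
  intro h
  have h1 := (N.ok j).ne
  rw [h, zero_mul] at h1
  exact h1 rfl

theorem ord_one_val {v : HeightOneSpectrum (𝓞 K)} {x : K} (h : v.valuation K x = 1) :
    ord (v.valuation K) x = 0 := by
  unfold ord
  rw [h, log_one, neg_zero]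

theorem ord_d (N : NT S Sg D0 d) (j : J) {v : HeightOneSpectrum (𝓞 K)} (hv : v ∉ Sg) :
    ord (v.valuation K) (d j) = 0 := by
  have h1 := ord_one_val ((N.ok j).val v hv)
  have h2 := ord_one_val (N.ok0.val v hv)
  rw [ord_mul (ok_ne N j) N.ok0.ne, h2, add_zero] at h1
  exact h1

/-- The data of a twist for a state. -/
structure Twi (N : NT S Sg D0 d) (s : St (Q2 K L Sg) (P3 K L Sg)) (D : K) : Prop where
  ne : D ≠ 0
  sq : ∀ u ∈ Sg, IsSquare (algebraMap K (u.adicCompletion K) (D / D0))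
  pos : ∀ t : K →+* ℝ, 0 < t (D / D0)
  T : ∀ q ∈ s.T, Odd (ord (q.1.valuation K) D)
  T1 : ∀ v ∈ s.T1, Odd (ord (v.1.valuation K) D) ∧ la v.1 (sc (D * N.pi v.1)) = s.e v
  ev : ∀ v : HeightOneSpectrum (𝓞 K), v ∉ Sg → nb K L v ≠ 1 → (∀ q ∈ s.T, q.1 ≠ v) →
    (∀ q ∈ s.T1, q.1 ≠ v) → Even (ord (v.valuation K) D)

/-- **The Selmer groups of the twists by `D`.** -/
theorem Twi.V_iff {N : NT S Sg D0 d} {s : St (Q2 K L Sg) (P3 K L Sg)} {D : K} (h : Twi N s D)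
    (j : J) (c : HH K L) : S.V (d j * D) (c : SC L) ↔ c ∈ N.sys.R s ∅ j := by
  have hdj := ok_ne N j
  have hE : d j * D ≠ 0 := mul_ne_zero hdj h.ne
  have hE0 : d j * D0 ≠ 0 := (N.ok j).ne
  have hdiv : d j * D / (d j * D0) = D / D0 := mul_div_mul_left _ _ hdj
  have hord : ∀ v : HeightOneSpectrum (𝓞 K), v ∉ Sg →
      ord (v.valuation K) (d j * D) = ord (v.valuation K) D := by
    intro v hv
    rw [ord_mul hdj h.ne, ord_d N j hv, zero_add]
  have hX : (c ∈ N.sys.XX j) ↔ (∀ v ∈ Sg, S.Lv (d j * D) v c) ∧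
      ∀ s : K →+* ℝ, S.Lr (d j * D) s c := by
    have h1 : (c ∈ N.sys.XX j) ↔ (∀ v ∈ Sg, S.Lv (d j * D0) v c) ∧
      ∀ s : K →+* ℝ, S.Lr (d j * D0) s c := N.hXX j c
    rw [h1]
    refine and_congr (forall₂_congr fun v hv => ?_) (forall_congr' fun t => ?_)
    · exact Lv_tw S hE0 hE (by rw [hdiv]; exact h.sq v hv) c
    · exact Lr_tw S hE0 hE (by rw [hdiv]; exact h.pos t) c
  have hT1 : ∀ v ∈ s.T1, S.Lv (d j * D) v.1 c ↔
      N.sys.r1 v c = (s.e v + N.sys.ep j v) * N.sys.u2 v c ∧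
      N.sys.r2 v c = (s.e v + N.sys.ep j v) * N.sys.u1 v c := by
    intro v hv
    have h1 := loc_three N v hE (by rw [hord _ v.2.1]; exact (h.T1 v hv).1) c.2
    have h2 : la v.1 (sc (d j * D * N.pi v.1)) = s.e v + N.sys.ep j v := by
      rw [mul_assoc, H38T1.sc_mul hdj (mul_ne_zero h.ne (N.pi0 _ v.2.1)),
        H38T1.la_add (N.ok0.two _ v.2.1), (h.T1 v hv).2, add_comm]
      rfl
    rw [h2] at h1
    exact h1
  have hT : ∀ q ∈ s.T, S.Lv (d j * D) q.1 c ↔ N.sys.r q c = 0 := fun q hq =>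
    loc_two N q hE (by rw [hord _ q.2.1]; exact h.T q hq) c.2
  have hT' : ∀ q, q ∉ s.T → (S.Lv (d j * D) q.1 c ↔ N.sys.u q c = 0) := by
    intro q hq
    refine loc_two_even N q hE ?_ c.2
    rw [hord _ q.2.1]
    refine h.ev q.1 q.2.1 (by rw [q.2.2]; decide) (fun q' hq' e => ?_) fun q' _ e => ?_
    · rw [Subtype.ext e] at hq'
      exact hq hq'
    · have e1 := q'.2.2
      rw [e, q.2.2] at e1
      exact absurd e1 (by decide)
  have hT1' : ∀ v, v ∉ s.T1 → (S.Lv (d j * D) v.1 c ↔ N.sys.u1 v c = 0 ∧ N.sys.u2 v c = 0) := by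
    intro q hq
    refine loc_three_even N q hE ?_ c.2
    rw [hord _ q.2.1]
    refine h.ev q.1 q.2.1 (by rw [q.2.2]; decide) (fun q' _ e => ?_) fun q' hq' e => ?_
    · have e1 := q'.2.2
      rw [e, q.2.2] at e1
      exact absurd e1 (by decide)
    · rw [Subtype.ext e] at hq'
      exact hq hq'
  rw [Sys.mem_R, hX]
  constructor
  · rintro ⟨h1, h2, h3⟩
    exact ⟨⟨fun v _ => h2 v, h3⟩, fun q hq _ => (hT' q hq).1 (h2 _), fun q hq => (hT q hq).1 (h2 _),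
      fun v hv => (hT1' v hv).1 (h2 _), fun v hv => (hT1 v hv).1 (h2 _)⟩
  · rintro ⟨⟨h1, h2⟩, h3, h4, h5, h6⟩
    refine ⟨c.2, fun v => ?_, h2⟩
    by_cases hv : v ∈ Sg
    · exact h1 v hv
    · have e1 := H30OR.nb_ge1 K L v
      have e2 := H30OR.nb_le3 (show Cub K L a b θ from S.cub) v
      obtain e3 | e3 | e3 : nb K L v = 1 ∨ nb K L v = 2 ∨ nb K L v = 3 := by omega
      · exact Wc_one N hv e3 hE c.2
      · by_cases hq : (⟨v, hv, e3⟩ : Q2 K L Sg) ∈ s.T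
        · exact (hT _ hq).2 (h4 _ hq)
        · exact (hT' _ hq).2 (h3 _ hq (Finset.notMem_empty _))
      · by_cases hq : (⟨v, hv, e3⟩ : P3 K L Sg) ∈ s.T1
        · exact (hT1 _ hq).2 (h6 _ hq)
        · exact (hT1' _ hq).2 (h5 _ hq)

/-- A unit with a given Legendre class. -/
theorem exists_unit {v : HeightOneSpectrum (𝓞 K)} (hv : OddP v) (t : ZMod 2) :
    ∃ n : K, n ≠ 0 ∧ v.valuation K n = 1 ∧ la v (sc n) = t := by
  have h01 : ∀ t : ZMod 2, t = 0 ∨ t = 1 := by decide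
  rcases h01 t with rfl | rfl
  · exact ⟨1, one_ne_zero, map_one _, by
      rw [← one_pow 2, H54MT.sc_sq one_ne_zero]
      exact H38T1.la_zero hv⟩
  · obtain ⟨n, h1, -, h3⟩ := H36MX.exists_la hv
    have h4 : v.valuation K (n : K) = 1 := (v.valuation_eq_one_iff_notMem (K := K)).2 h1
    refine ⟨n, ?_, h4, h3⟩
    intro h
    rw [h, map_zero] at h4
    exact zero_ne_one h4

/-- **N5.** The twists of a state with an even number of primes of type two. -/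
theorem exists_D (N : NT S Sg D0 d) (s : St (Q2 K L Sg) (P3 K L Sg)) (hev : Even s.T.card)
    {A₀ : Set (HeightOneSpectrum (𝓞 K))} (hA₀ : A₀.Finite) :
    ∃ (D : K) (p : HeightOneSpectrum (𝓞 K)), p ∉ Sg ∧ p ∉ A₀ ∧
      Odd (ord (p.valuation K) (D / D0)) ∧ Twi N s D := by
  have hD0 := N.ok0.ne
  obtain ⟨T, hTd⟩ : ∃ T, T = s.T.image Subtype.val ∪ s.T1.image Subtype.val := ⟨_, rfl⟩
  have hmem : ∀ v, v ∈ T ↔ (∃ q ∈ s.T, q.1 = v) ∨ ∃ q ∈ s.T1, q.1 = v := by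
    intro v
    rw [hTd, Finset.mem_union, Finset.mem_image, Finset.mem_image]
  have hTS : ∀ v ∈ T, v ∉ Sg := by
    intro v hv
    rcases (hmem v).1 hv with ⟨q, -, rfl⟩ | ⟨q, -, rfl⟩
    · exact q.2.1
    · exact q.2.1
  have hun : ∀ v : HeightOneSpectrum (𝓞 K), ∃ n : K, v ∉ Sg → n ≠ 0 ∧ v.valuation K n = 1 ∧
      la v (sc n) = (if h : v ∉ Sg ∧ nb K L v = 3 then s.e ⟨v, h⟩ else 0) + la v (sc D0) := by
    intro v
    by_cases hv : v ∈ Sg
    · exact ⟨1, fun h => absurd hv h⟩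
    · obtain ⟨n, hn⟩ := exists_unit (N.ok0.two v hv)
        ((if h : v ∉ Sg ∧ nb K L v = 3 then s.e ⟨v, h⟩ else 0) + la v (sc D0))
      exact ⟨n, fun _ => hn⟩
  choose n hn using hun
  obtain ⟨x, hx⟩ : ∃ x : HeightOneSpectrum (𝓞 K) → K, ∀ v, x v = N.pi v * n v := ⟨_, fun _ => rfl⟩
  have hsum : ∑ v ∈ T, la v (sc (-(4 * a ^ 3 + 27 * b ^ 2))) = 0 := by
    have hdj : Disjoint (s.T.image Subtype.val) (s.T1.image Subtype.val) := by
      rw [Finset.disjoint_left]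
      intro v hv hv1
      obtain ⟨q, -, rfl⟩ := Finset.mem_image.1 hv
      obtain ⟨q', -, e⟩ := Finset.mem_image.1 hv1
      have e1 := q'.2.2
      rw [e, q.2.2] at e1
      exact absurd e1 (by decide)
    rw [hTd, Finset.sum_union hdj, Finset.sum_image Subtype.val_injective.injOn,
      Finset.sum_image Subtype.val_injective.injOn,
      Finset.sum_congr rfl fun q _ => la_disc2 N q, Finset.sum_congr rfl fun q _ => la_disc3 N q,
      Finset.sum_const, Finset.sum_const_zero, add_zero, nsmul_eq_mul, mul_one]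
    exact (ZMod.natCast_eq_zero_iff_even).2 hev
  have hxo : ∀ v ∈ T, Odd (ord (v.valuation K) (x v)) := by
    intro v hv
    have h1 := hn v (hTS v hv)
    rw [hx, ord_mul (N.pi0 v (hTS v hv)) h1.1, ord_one_val h1.2.1, add_zero]
    exact N.nk_pio (hTS v hv)
  have hx0 : ∀ v ∈ T, x v ≠ 0 := by
    intro v hv
    rw [hx]
    exact mul_ne_zero (N.pi0 v (hTS v hv)) (hn v (hTS v hv)).1
  obtain ⟨δ, p, hδ, hpS, hpT, hpA, hnb, hpo, hsq, hpos, hloc, hev'⟩ := exists_del S N.ok0.two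
    N.ok0.dis N.cl hTS hsum x hx0 hxo hA₀
  have hdiv : D0 * δ / D0 = δ := mul_div_cancel_left₀ _ hD0
  have hordD : ∀ v : HeightOneSpectrum (𝓞 K), v ∉ Sg →
      ord (v.valuation K) (D0 * δ) = ord (v.valuation K) δ := by
    intro v hv
    rw [ord_mul hD0 hδ, ord_one_val (N.ok0.val v hv), zero_add]
  have hordT : ∀ v ∈ T, Odd (ord (v.valuation K) δ) ∧ la v (sc δ) = la v (sc (x v)) := by
    intro v hv
    obtain ⟨r, hr0, hr⟩ := hloc v hv
    have hOdd : OddP v := N.ok0.two v (hTS v hv)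
    have h1 := H86TL.same_of_sq v hOdd (hx0 v hv) hδ (by
      rw [hr]
      exact ⟨algebraMap K (v.adicCompletion K) (x v) * r, by ring⟩)
    refine ⟨?_, h1.2⟩
    have h2 := h1.1
    rw [H38T1.eo_sc hδ, H38T1.eo_sc (hx0 v hv)] at h2
    have h3 := hxo v hv
    rw [← Int.not_even_iff_odd, ← ZMod.intCast_eq_zero_iff_even] at h3 ⊢
    rwa [h2]
  refine ⟨D0 * δ, p, hpS, hpA, by rw [hdiv]; exact hpo, mul_ne_zero hD0 hδ, fun u hu => ?_,
    fun t => ?_, fun q hq => ?_, fun v hv => ⟨?_, ?_⟩, fun v h1 h2 h3 h4 => ?_⟩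
  · rw [hdiv]
    exact hsq u hu
  · rw [hdiv]
    exact hpos t
  · rw [hordD _ q.2.1]
    exact (hordT _ ((hmem _).2 (Or.inl ⟨q, hq, rfl⟩))).1
  · rw [hordD _ v.2.1]
    exact (hordT _ ((hmem _).2 (Or.inr ⟨v, hv, rfl⟩))).1
  · have hvT : v.1 ∈ T := (hmem _).2 (Or.inr ⟨v, hv, rfl⟩)
    have hOdd : OddP v.1 := N.ok0.two v.1 v.2.1
    have h1 := hn v.1 v.2.1
    have h2 : (if h : v.1 ∉ Sg ∧ nb K L v.1 = 3 then s.e ⟨v.1, h⟩ else 0) = s.e v := dif_pos v.2
    rw [h2] at h1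
    rw [H38T1.sc_mul (mul_ne_zero hD0 hδ) (N.pi0 _ v.2.1), H38T1.sc_mul hD0 hδ,
      H38T1.la_add hOdd, H38T1.la_add hOdd, (hordT _ hvT).2, hx,
      H38T1.sc_mul (N.pi0 _ v.2.1) h1.1, H38T1.la_add hOdd, h1.2.2]
    generalize la v.1 (sc D0) = t1
    generalize la v.1 (sc (N.pi v.1)) = t2
    generalize s.e v = t3
    revert t1 t2 t3
    decide
  · rw [hordD v h1]
    refine hev' v h1 (fun h5 => ?_) (fun h5 => ?_)
    · rcases (hmem v).1 h5 with ⟨q, hq, e⟩ | ⟨q, hq, e⟩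
      · exact h3 q hq e
      · exact h4 q hq e
    · rw [h5] at h2
      exact h2 hnb

end H38MR
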