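import Pool.Agent.H30.MQ.Mu
import Pool.Agent.H30.ZO.Tv
import Pool.Agent.H36.MG.Gt
import Pool.Agent.H88.RE.Ib

/-!
MP_78d38b_MQ (helper38), N8: the multiquadratic extensions.
-/

set_option autoImplicit false
set_option linter.unusedSectionVars false
open scoped Classical

open WithZero NumberField IsDedekindDomain H38RT WeierstrassCurve Pool.Agent.H10
open H38T1 (SC sc scu rep eo la si OddP)
open H30ZO (Tv)

namespace H38MR

variable {K N : Type} [Field K] [NumberField K] [Field N] [NumberField N] [Algebra K N]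

variable (K N) in
/-- The nonzero elements of `K` with a square root in `N`. -/
def Dl : Set K := {d | d ≠ 0 ∧ IsSquare (algebraMap K N d)}

theorem mul2K_Dl : H30MQ.Mul2K (Dl K N) := by
  refine ⟨⟨one_ne_zero, by rw [map_one]; exact ⟨1, (one_mul 1).symm⟩⟩, fun d hd => hd.1, ?_⟩
  rintro d ⟨h1, h2⟩ d' ⟨h3, h4⟩
  exact ⟨d * d', ⟨mul_ne_zero h1 h3, by rw [map_mul]; exact h2.mul h4⟩, 1, one_ne_zero, by
    rw [one_pow, mul_one]⟩

/-- The square roots in `N`. -/
theorem root_pm {d : K} {r : N} (hr : algebraMap K N d = r * r) (g : N ≃ₐ[K] N) :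
    g r = r ∨ g r = -r := by
  have h1 : (g r) ^ 2 = r ^ 2 := by
    rw [← map_pow, sq, ← hr, AlgEquiv.commutes]
  exact sq_eq_sq_iff_eq_or_eq_neg.1 h1

theorem fin_Dl [IsGalois K N] : (sc '' Dl K N : Set (SC K)).Finite := by
  have hfd : FiniteDimensional K N := Module.Finite.of_restrictScalars_finite ℚ K N
  have h1 : ∀ c : (sc '' Dl K N : Set (SC K)), ∃ (d : K) (r : N), d ≠ 0 ∧ sc d = c ∧
      algebraMap K N d = r * r := by
    rintro ⟨_, d, ⟨h1, r, hr⟩, rfl⟩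
    exact ⟨d, r, h1, rfl, hr⟩
  choose d r hd hs hr using h1
  have hr0 : ∀ c, r c ≠ 0 := by
    intro c h
    have h2 := hr c
    rw [h, mul_zero] at h2
    exact (map_ne_zero (algebraMap K N)).2 (hd c) h2
  rw [← Set.finite_coe_iff]
  refine Finite.of_injective (fun c => {g : N ≃ₐ[K] N | g (r c) = r c}) ?_
  intro c c' h
  replace h : {g : N ≃ₐ[K] N | g (r c) = r c} = {g : N ≃ₐ[K] N | g (r c') = r c'} := h
  have h2 : ∀ g : N ≃ₐ[K] N, g (r c * r c') = r c * r c' := by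
    intro g
    have h3 : g (r c) = r c ↔ g (r c') = r c' := by
      have h4 : g ∈ {g : N ≃ₐ[K] N | g (r c) = r c} ↔ g ∈ {g : N ≃ₐ[K] N | g (r c') = r c'} := by
        rw [h]
      exact h4
    rw [map_mul]
    rcases root_pm (hr c) g with h4 | h4
    · rw [h4, h3.1 h4]
    · rcases root_pm (hr c') g with h5 | h5
      · rw [h3.2 h5, h5]
      · rw [h4, h5, neg_mul_neg]
  obtain ⟨y, hy⟩ := (IsGalois.mem_range_algebraMap_iff_fixed (r c * r c')).2 h2
  have h3 : d c * d c' = y * y := by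
    apply (algebraMap K N).injective
    rw [map_mul, map_mul, hr, hr, hy]
    ring
  have h4 : sc (d c * d c') = 0 :=
    (H38T1.sc_eq_zero (mul_ne_zero (hd c) (hd c'))).2 ⟨y, h3⟩
  rw [H38T1.sc_mul (hd c) (hd c'), hs, hs] at h4
  apply Subtype.ext
  have h5 : (c' : SC K) + c' = 0 := by
    rw [← two_nsmul, H38T1.SC.two_smul]
  exact add_right_cancel (h4.trans h5.symm)

/-- A multiquadratic extension is generated by square roots. -/
theorem gen_Dl [IsGalois K N] (h2 : ∀ g : N ≃ₐ[K] N, g * g = 1) (x : N) :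
    x ∈ IntermediateField.adjoin K {s : N | ∃ d ∈ Dl K N, s ^ 2 = algebraMap K N d} := by
  have hfd : FiniteDimensional K N := Module.Finite.of_restrictScalars_finite ℚ K N
  obtain ⟨E, hE⟩ : ∃ E, E = IntermediateField.adjoin K
    {s : N | ∃ d ∈ Dl K N, s ^ 2 = algebraMap K N d} := ⟨_, rfl⟩
  have hinv : ∀ g : N ≃ₐ[K] N, g⁻¹ = g := fun g => inv_eq_of_mul_eq_one_left (h2 g)
  have hcomm : ∀ g h : N ≃ₐ[K] N, g * h = h * g := by
    intro g h
    have e := hinv (g * h)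
    rw [mul_inv_rev, hinv, hinv] at e
    exact e.symm
  have hbot : E.fixingSubgroup = ⊥ := by
    rw [Subgroup.eq_bot_iff_forall]
    intro g hg
    by_contra hne
    let _ : CommGroup (N ≃ₐ[K] N) := { (inferInstance : Group (N ≃ₐ[K] N)) with mul_comm := hcomm }
    obtain ⟨φ, hφ⟩ := H88OD.Ib_sep (M := Additive (N ≃ₐ[K] N)) (fun m => h2 m)
      (m := Additive.ofMul g) hne
    have hm : ∀ u w : N ≃ₐ[K] N, φ (Additive.ofMul (u * w)) =
        φ (Additive.ofMul u) + φ (Additive.ofMul w) := fun u w => φ.map_add _ _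
    obtain ⟨H, hH⟩ : ∃ H : Subgroup (N ≃ₐ[K] N), ∀ u, u ∈ H ↔ φ (Additive.ofMul u) = 0 :=
      ⟨{ carrier := {u | φ (Additive.ofMul u) = 0}
         one_mem' := φ.map_zero
         mul_mem' := fun {u w} hu hw => by
          change φ (Additive.ofMul (u * w)) = 0
          rw [hm, hu, hw, add_zero]
         inv_mem' := fun {u} hu => by
          change φ (Additive.ofMul u⁻¹) = 0
          rw [hinv]
          exact hu }, fun _ => Iff.rfl⟩
    obtain ⟨t, ht0, ht1, ht2⟩ := H36MG.ex_anti H (z := g) (by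
      rw [hH, hφ]
      exact one_ne_zero) (by
      rw [sq, h2]
      exact H.one_mem) (by
      intro h hh
      rw [hcomm g⁻¹ h, mul_assoc, inv_mul_cancel, mul_one]
      exact hh)
    have hpm : ∀ u : N ≃ₐ[K] N, u t = t ∨ u t = -t := by
      intro u
      by_cases hu : φ (Additive.ofMul u) = 0
      · exact Or.inl (ht1 u ((hH u).2 hu))
      · right
        have h3 : ∀ z : ZMod 2, z ≠ 0 → z + 1 = 0 := by decide
        have h4 : u * g ∈ H := by
          rw [hH, hm, hφ]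
          exact h3 _ hu
        have h5 := ht1 _ h4
        rw [AlgEquiv.mul_apply, ht2, map_neg] at h5
        rw [← h5, neg_neg]
        exact h5.symm ▸ rfl
    have hfix : ∀ u : N ≃ₐ[K] N, u (t ^ 2) = t ^ 2 := by
      intro u
      rw [map_pow]
      rcases hpm u with h3 | h3
      · rw [h3]
      · rw [h3, neg_sq]
    obtain ⟨y, hy⟩ := (IsGalois.mem_range_algebraMap_iff_fixed (t ^ 2)).2 hfix
    have hy0 : y ≠ 0 := by
      rintro rfl
      rw [map_zero] at hy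
      exact ht0 (pow_eq_zero_iff two_ne_zero |>.1 hy.symm)
    have htE : t ∈ E := by
      rw [hE]
      exact IntermediateField.subset_adjoin K _ ⟨y, ⟨hy0, t, by rw [hy, sq]⟩, hy.symm⟩
    have h3 := (IntermediateField.mem_fixingSubgroup_iff E g).1 hg t htE
    rw [ht2] at h3
    exact ht0 (neg_eq_self.1 h3)
  rw [← hE]
  have h3 : E = ⊤ := by
    rw [← IsGalois.fixedField_fixingSubgroup E, hbot, IntermediateField.fixedField_bot]
  rw [h3]
  exact IntermediateField.mem_top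

/-- The curve over the multiquadratic extension. -/
theorem pg_mq [IsGalois K N] (h2 : ∀ g : N ≃ₐ[K] N, g * g = 1) {a b D : K}
    (hne : 4 * a ^ 3 + 27 * b ^ 2 ≠ 0) (hD : D ≠ 0)
    (H : ∀ d ∈ Dl K N, Tv K ((d * D) ^ 2 * a) ((d * D) ^ 3 * b)) :
    H36MG.PG K (D ^ 2 * a) (D ^ 3 * b) (1 : N) := by
  have e1 : ∀ d : K, d ^ 2 * (D ^ 2 * a) = (d * D) ^ 2 * a := fun d => by ring
  have e2 : ∀ d : K, d ^ 3 * (D ^ 3 * b) = (d * D) ^ 3 * b := fun d => by ring
  have h3 : 4 * (D ^ 2 * a) ^ 3 + 27 * (D ^ 3 * b) ^ 2 ≠ 0 := by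
    have e : 4 * (D ^ 2 * a) ^ 3 + 27 * (D ^ 3 * b) ^ 2 = D ^ 6 * (4 * a ^ 3 + 27 * b ^ 2) := by
      ring
    rw [e]
    exact mul_ne_zero (pow_ne_zero 6 hD) hne
  have hK : H30MQ.GoodK (Dl K N) (D ^ 2 * a) (D ^ 3 * b) K := by
    intro d hd
    have h1 := H d hd
    have h4 : H30MQ.tw K K (D ^ 2 * a) (D ^ 3 * b) d =
        ⟨0, 0, 0, (d * D) ^ 2 * a, (d * D) ^ 3 * b⟩ := by
      unfold H30MQ.tw
      rw [e1, e2]
      rfl
    rw [h4]
    exact ⟨H14T1.bdd_of_sha2 h1.2.2, h1.1⟩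
  have hfd : FiniteDimensional K N := Module.Finite.of_restrictScalars_finite ℚ K N
  obtain ⟨α, hα⟩ := Field.exists_primitive_element K N
  obtain ⟨k', -, h5, hN, hG⟩ := H30MQ.goodI_mem mul2K_Dl h3
    (H30MQ.goodI_bot (N := K) (F := N) mul2K_Dl h3 hK) (gen_Dl h2 α)
  have htop : ∀ x : N, x ∈ k' := by
    intro x
    have h6 : IntermediateField.adjoin K {α} ≤ k' := by
      rw [IntermediateField.adjoin_simple_le_iff]
      exact h5
    rw [hα] at h6
    exact h6 IntermediateField.mem_top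
  have hGN : H30MQ.GoodK (Dl K N) (D ^ 2 * a) (D ^ 3 * b) N :=
    H30MQ.goodK_triv mul2K_Dl h3 (M := k') (M' := N) (fun x => ⟨⟨x, htop x⟩, rfl⟩) hG
  have h7 := hGN 1 mul2K_Dl.one
  have e3 : H30MQ.tw K N (D ^ 2 * a) (D ^ 3 * b) 1 =
      H36MG.twM K (D ^ 2 * a) (D ^ 3 * b) (1 : N) := by
    unfold H30MQ.tw H36MG.twM
    rw [one_pow, one_pow, one_pow, one_pow, one_mul, one_mul, one_mul, one_mul]
  rw [e3] at h7
  exact h7

/-- **All twists over the number fields in a multiquadratic extension.** -/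
theorem fin_all [IsGalois K N] (h2 : ∀ g : N ≃ₐ[K] N, g * g = 1) {a b D : K}
    (hne : 4 * a ^ 3 + 27 * b ^ 2 ≠ 0) (hD : D ≠ 0)
    (H : ∀ d ∈ Dl K N, Tv K ((d * D) ^ 2 * a) ((d * D) ^ 3 * b)) (M : Type) [Field M]
    [NumberField M] [Algebra K M] [Algebra M N] [IsScalarTower K M N] {m : M} (hm : m ≠ 0)
    (hs : IsSquare (algebraMap M N m)) :
    Finite (⟨0, 0, 0, (m * algebraMap K M D) ^ 2 * algebraMap K M a,
      (m * algebraMap K M D) ^ 3 * algebraMap K M b⟩ : WeierstrassCurve M).toAffine.Point ∧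
    H14T1.TwoPartFinite M (⟨0, 0, 0, (m * algebraMap K M D) ^ 2 * algebraMap K M a,
      (m * algebraMap K M D) ^ 3 * algebraMap K M b⟩ : WeierstrassCurve M) := by
  have h3 : 4 * (D ^ 2 * a) ^ 3 + 27 * (D ^ 3 * b) ^ 2 ≠ 0 := by
    have e : 4 * (D ^ 2 * a) ^ 3 + 27 * (D ^ 3 * b) ^ 2 = D ^ 6 * (4 * a ^ 3 + 27 * b ^ 2) := by
      ring
    rw [e]
    exact mul_ne_zero (pow_ne_zero 6 hD) hne
  have key := H36MG.pg_down h3 (pg_mq h2 hne hD H) M hm hs
  have e : H36MG.twM K (D ^ 2 * a) (D ^ 3 * b) m =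
      ⟨0, 0, 0, (m * algebraMap K M D) ^ 2 * algebraMap K M a,
        (m * algebraMap K M D) ^ 3 * algebraMap K M b⟩ := by
    unfold H36MG.twM
    rw [map_mul, map_mul, map_pow, map_pow, mul_pow, mul_pow, mul_assoc, mul_assoc]
  rw [e] at key
  exact key

/-- **Finiteness over the number fields in a multiquadratic extension.** -/
theorem fin_mq [IsGalois K N] (h2 : ∀ g : N ≃ₐ[K] N, g * g = 1) {a b D : K}
    (hne : 4 * a ^ 3 + 27 * b ^ 2 ≠ 0) (hD : D ≠ 0)
    (H : ∀ d ∈ Dl K N, Tv K ((d * D) ^ 2 * a) ((d * D) ^ 3 * b)) (M : IntermediateField K N)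
    [NumberField M] {d : K} (hd : d ∈ Dl K N) :
    Finite (⟨0, 0, 0, algebraMap K M ((d * D) ^ 2 * a), algebraMap K M ((d * D) ^ 3 * b)⟩ :
      WeierstrassCurve M).toAffine.Point ∧
    H14T1.TwoPartFinite M (⟨0, 0, 0, algebraMap K M ((d * D) ^ 2 * a),
      algebraMap K M ((d * D) ^ 3 * b)⟩ : WeierstrassCurve M) := by
  have e1 : ∀ d : K, d ^ 2 * (D ^ 2 * a) = (d * D) ^ 2 * a := fun d => by ring
  have e2 : ∀ d : K, d ^ 3 * (D ^ 3 * b) = (d * D) ^ 3 * b := fun d => by ring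
  have h3 : 4 * (D ^ 2 * a) ^ 3 + 27 * (D ^ 3 * b) ^ 2 ≠ 0 := by
    have e : 4 * (D ^ 2 * a) ^ 3 + 27 * (D ^ 3 * b) ^ 2 = D ^ 6 * (4 * a ^ 3 + 27 * b ^ 2) := by
      ring
    rw [e]
    exact mul_ne_zero (pow_ne_zero 6 hD) hne
  have key := H30MQ.multi (K := K) (N := K) (F := N) mul2K_Dl (A := D ^ 2 * a) (B := D ^ 3 * b)
    h3 (by
      intro d hd
      have h1 := H d hd
      have h4 : H30MQ.tw K K (D ^ 2 * a) (D ^ 3 * b) d =
          ⟨0, 0, 0, (d * D) ^ 2 * a, (d * D) ^ 3 * b⟩ := by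
        unfold H30MQ.tw
        rw [e1, e2]
        rfl
      rw [h4]
      exact ⟨h1.1, h1.2.2⟩) M (fun x _ => gen_Dl h2 x) hd
  unfold H30MQ.tw at key
  rw [e1, e2] at key
  exact key

end H38MR
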