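import Pool.Agent.H38.MR.Ha
import Pool.Agent.H38.MR.Hb
import Pool.Agent.H88.OD.Fc

/-!
MP_78d38b_MQ (helper38), N8: the main theorem, library form.
-/

set_option autoImplicit false
set_option linter.unusedSectionVars false
open scoped Classical

open WithZero NumberField IsDedekindDomain H38RT WeierstrassCurve Pool.Agent.H10
open H38T1 (SC sc scu rep eo la si OddP)
open H30ZO (Tv)
open H88PL (Ev)

namespace H38MR

variable {K : Type} [Field K] [NumberField K]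

/-- `D ≠ 0`, and `D / D₀` is a square at the primes of `S` and totally positive. -/
def Nr (S : Finset (HeightOneSpectrum (𝓞 K))) (D0 D : K) : Prop :=
  D ≠ 0 ∧ (∀ v ∈ S, IsSquare (algebraMap K (v.adicCompletion K) (D / D0))) ∧
    ∀ s : K →+* ℝ, 0 < s (D / D0)

/-- The criterion. -/
theorem main_mq {a b : K} (ha : ∀ v : HeightOneSpectrum (𝓞 K), v.valuation K a ≤ 1)
    (hb : ∀ v : HeightOneSpectrum (𝓞 K), v.valuation K b ≤ 1)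
    (hir : ∀ t : K, t ^ 3 + a * t + b ≠ 0)
    (hsq : ¬ IsSquare (-(4 * a ^ 3 + 27 * b ^ 2))) {D0 : K} (hD0 : D0 ≠ 0) {Δ : Set K}
    (hΔ : (sc '' Δ : Set (SC K)).Finite) (h0 : ∀ d ∈ Δ, d ≠ 0) :
    (∃ S0 : Finset (HeightOneSpectrum (𝓞 K)), ∀ D, Nr S0 D0 D →
      (∀ d ∈ Δ, Tv K ((d * D) ^ 2 * a) ((d * D) ^ 3 * b)) → ∀ d ∈ Δ, Ev a b (d * D0)) ∧
    ((∀ d ∈ Δ, Ev a b (d * D0)) → ∀ S : Finset (HeightOneSpectrum (𝓞 K)), ∃ f : ℕ → K,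
      (∀ n, Nr S D0 (f n) ∧ ∀ d ∈ Δ, Tv K ((d * f n) ^ 2 * a) ((d * f n) ^ 3 * b)) ∧
      ∀ m n, IsSquare (f m * f n) → m = n) := by
  have hne : 4 * a ^ 3 + 27 * b ^ 2 ≠ 0 := by
    intro h
    apply hsq
    rw [h, neg_zero]
    exact ⟨0, (mul_zero 0).symm⟩
  obtain ⟨L, _, _, _, θ, ⟨S⟩⟩ := H88OD.exists_self ha hb hir hne hsq
  obtain ⟨J, _, d, hd, hinj, hrep⟩ := exists_rep hΔ h0
  have hd0 : ∀ j, d j ≠ 0 := fun j => h0 _ (hd j)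
  have hq : ∀ (x : K) (j : J) (E : K), E ≠ 0 → IsSquare (x / d j) →
      IsSquare (x * E / (d j * E)) := by
    intro x j E hE h
    rwa [mul_div_mul_right _ _ hE]
  constructor
  · obtain ⟨S0, hS0⟩ := main_nec S hD0 hd0
    refine ⟨S0, fun D hD h x hx => ?_⟩
    obtain ⟨j, hj⟩ := hrep x hx
    exact (ev_sq S (mul_ne_zero (hd0 j) hD0) (mul_ne_zero (h0 x hx) hD0) (hq x j D0 hD0 hj)).1
      (hS0 D hD.1 hD.2.1 hD.2.2 (fun j => h _ (hd j)) j)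
  · intro hev Sg
    refine H88OD.exists_seq (P := fun D => Nr Sg D0 D ∧ ∀ d ∈ Δ,
      Tv K ((d * D) ^ 2 * a) ((d * D) ^ 3 * b)) (fun D h => h.1.1) ?_
    intro X
    obtain ⟨D, ⟨h1, h2, h3, h4⟩, h5⟩ := main_suf S hD0 hd0 hinj (fun j => hev _ (hd j)) Sg X
    refine ⟨D, ⟨⟨h1, h2, h3⟩, fun x hx => ?_⟩, h5⟩
    obtain ⟨j, hj⟩ := hrep x hx
    exact tv_sq S (mul_ne_zero (hd0 j) h1) (mul_ne_zero (h0 x hx) h1) (hq x j D h1 hj) (h4 j)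

end H38MR
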