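import Pool.Agent.H88.RE.Ib
import Pool.Agent.H76.GM.Wa
import Pool.Agent.H30.OR.Th
import Pool.Agent.H38.MR.Tc

/-!
MP_78d38b_MQ (helper38): elements of `K` with prescribed local classes at `Sg ∪ T`, of even order outside `Sg`, `T` and one
prime of type three.
-/

set_option autoImplicit false
set_option linter.unusedSectionVars false
open scoped Classical

open WithZero NumberField IsDedekindDomain H38RT
open H38T1 (SC sc scu rep eo la si OddP)
open H76PP (Cub LC ev scm dn)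
open H30ZO (nb)
open H88OD

namespace H38MR

theorem cl_mono {K : Type} [Field K] [NumberField K] {Sg Sg' : Finset (HeightOneSpectrum (𝓞 K))}
    (h : ClOk K Sg) (hs : Sg ⊆ Sg') : ClOk K Sg' := by
  intro p hp
  obtain ⟨z, h0, h1, h2⟩ := h p fun h3 => hp (hs h3)
  exact ⟨z, h0, h1, fun u hu hup => h2 u (fun h3 => hu (hs h3)) hup⟩

theorem fin_US {K : Type} [Field K] [NumberField K] (Sg : Finset (HeightOneSpectrum (𝓞 K))) :
    ((H24TD.US K (Sg : Set (HeightOneSpectrum (𝓞 K))) : AddSubgroup (SC K)) : Set (SC K)).Finite := by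
  have h1 := H88T7.card_US7 (K := K) (Finset.finite_toSet Sg)
  have h2 : Finite (H24TD.US K (Sg : Set (HeightOneSpectrum (𝓞 K)))) :=
    Nat.finite_of_card_ne_zero (by rw [h1]; positivity)
  exact h2

theorem exists_del {K L : Type} [Field K] [NumberField K] [Field L] [NumberField L]
    [Algebra K L] {a b : K} {θ : L} (S : H88OD.Ext K K L a b θ)
    {Sg T : Finset (HeightOneSpectrum (𝓞 K))}
    (h2 : ∀ v : HeightOneSpectrum (𝓞 K), v ∉ Sg → v.valuation K 2 = 1)
    (hdis : ∀ v : HeightOneSpectrum (𝓞 K), v ∉ Sg → v.valuation K (4 * a ^ 3 + 27 * b ^ 2) = 1)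
    (hcl : ClOk K Sg) (hT : ∀ v ∈ T, v ∉ Sg)
    (hsum : ∑ v ∈ T, la v (sc (-(4 * a ^ 3 + 27 * b ^ 2))) = 0)
    (x : HeightOneSpectrum (𝓞 K) → K) (hx0 : ∀ v ∈ T, x v ≠ 0)
    (hx : ∀ v ∈ T, Odd (ord (v.valuation K) (x v)))
    {A₀ : Set (HeightOneSpectrum (𝓞 K))} (hA₀ : A₀.Finite) :
    ∃ (δ : K) (p : HeightOneSpectrum (𝓞 K)), δ ≠ 0 ∧ p ∉ Sg ∧ p ∉ T ∧ p ∉ A₀ ∧ nb K L p = 1 ∧
      Odd (ord (p.valuation K) δ) ∧
      (∀ u ∈ Sg, IsSquare (algebraMap K (u.adicCompletion K) δ)) ∧ (∀ s : K →+* ℝ, 0 < s δ) ∧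
      (∀ v ∈ T, ∃ r : v.adicCompletion K, r ≠ 0 ∧ algebraMap K (v.adicCompletion K) δ =
        algebraMap K (v.adicCompletion K) (x v) * r ^ 2) ∧
      ∀ v : HeightOneSpectrum (𝓞 K), v ∉ Sg → v ∉ T → v ≠ p → Even (ord (v.valuation K) δ) := by
  obtain ⟨y, hy0, hy1, hy2⟩ := H76GM.approx_pos (Sg ∪ T) (fun u => if u ∈ T then x u else 1) (by
    intro u hu
    by_cases h : u ∈ T
    · rw [if_pos h]
      exact hx0 u h
    · rw [if_neg h]
      exact one_ne_zero)
  have hfin : {v : HeightOneSpectrum (𝓞 K) | v ∉ Sg ∪ T ∧ Odd (ord (v.valuation K) y)}.Finite := by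
    refine (fin_bad hy0).subset ?_
    rintro v ⟨-, hv⟩ h
    have h1 : ord (v.valuation K) y = 0 := by
      unfold ord
      rw [h, log_one, neg_zero]
    rw [h1] at hv
    exact absurd hv (by decide)
  obtain ⟨Ty, hTy⟩ : ∃ Ty, Ty = hfin.toFinset := ⟨_, rfl⟩
  have hmem : ∀ v, v ∈ Ty ↔ v ∉ Sg ∪ T ∧ Odd (ord (v.valuation K) y) := by
    intro v
    rw [hTy, Set.Finite.mem_toFinset]
    rfl
  have hTyS : ∀ v ∈ Ty, v ∉ Sg := fun v hv h => ((hmem v).1 hv).1 (Finset.mem_union_left _ h)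
  obtain ⟨φ, hφ⟩ : ∃ φ : SC K →+ ZMod 2, ∀ c, φ c = ∑ q ∈ Ty, la q c :=
    ⟨AddMonoidHom.mk' (fun c => ∑ q ∈ Ty, la q c) (by
      intro c c'
      rw [← Finset.sum_add_distrib]
      exact Finset.sum_congr rfl fun q hq => H38T1.la_add (h2 q (hTyS q hq)) c c'), fun _ => rfl⟩
  have hordT : ∀ v ∈ T, Odd (ord (v.valuation K) y) := by
    intro v hv
    have h1 := (hy1 v (Finset.mem_union_right _ hv)).1
    rw [if_pos hv] at h1
    unfold ord
    rw [h1]
    exact hx v hv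
  have hΔ0 : (-(4 * a ^ 3 + 27 * b ^ 2)) ≠ 0 := neg_ne_zero.2 S.dne
  have hsq : ∀ u ∈ Sg, IsSquare (algebraMap K (u.adicCompletion K) y) := by
    intro u hu
    have huT : u ∉ T := fun h => hT u h hu
    obtain ⟨-, r, -, hr⟩ := hy1 u (Finset.mem_union_left _ hu)
    rw [if_neg huT, map_one, one_mul] at hr
    exact ⟨r, by rw [hr, sq]⟩
  have hφΔ : φ (sc (-(4 * a ^ 3 + 27 * b ^ 2))) = 0 := by
    have h3 := H30OR.sum_la hΔ0 hy0 (Sg := Sg) (T := Ty ∪ T) h2 (by
      intro v hv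
      rw [Valuation.map_neg]
      exact hdis v hv) hsq hy2 (by
      intro v
      rw [Finset.mem_union, hmem, Finset.mem_union]
      constructor
      · rintro (⟨h4, h5⟩ | h4)
        · exact ⟨fun h => h4 (Or.inl h), h5⟩
        · exact ⟨hT v h4, hordT v h4⟩
      · rintro ⟨h4, h5⟩
        by_cases h6 : v ∈ T
        · exact Or.inr h6
        · exact Or.inl ⟨fun h => h.elim h4 h6, h5⟩)
    have hdj : Disjoint Ty T := by
      rw [Finset.disjoint_left]
      intro v hv hvT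
      exact ((hmem v).1 hv).1 (Finset.mem_union_right _ hvT)
    rw [Finset.sum_union hdj, hsum, add_zero] at h3
    rw [hφ]
    exact h3
  obtain ⟨p, hpA, hnb, hla⟩ := exists_three S φ hφΔ (fin_US (Sg ∪ T))
    (hA₀.union ((Finset.finite_toSet (Sg ∪ T)).union (Finset.finite_toSet Ty)))
  have hpS : p ∉ Sg ∪ T := fun h => hpA (Or.inr (Or.inl (Finset.mem_coe.2 h)))
  have hpT : p ∉ Ty := fun h => hpA (Or.inr (Or.inr (Finset.mem_coe.2 h)))
  obtain ⟨δ', hδ0, hδ1, hδ2, hδ3, hδ4⟩ := exists_delta (Sg := Sg ∪ T)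
    (fun v hv => h2 v fun h => hv (Finset.mem_union_left _ h))
    (cl_mono hcl Finset.subset_union_left) (insert p Ty) (by
      intro q hq
      rcases Finset.mem_insert.1 hq with rfl | hq
      · exact hpS
      · exact ((hmem q).1 hq).1) 0 (by
      intro β hβ
      rw [Finset.sum_insert hpT, hla β hβ, hφ]
      have h3 : ∀ t : ZMod 2, t + t = 0 := by decide
      rw [h3]
      symm
      exact Finset.sum_eq_zero fun s _ => by rw [Pi.zero_apply, zero_mul])
  refine ⟨y * δ', p, mul_ne_zero hy0 hδ0, fun h => hpS (Finset.mem_union_left _ h),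
    fun h => hpS (Finset.mem_union_right _ h), fun h => hpA (Or.inl h), hnb, ?_, ?_, ?_, ?_, ?_⟩
  · rw [ord_mul hy0 hδ0, hδ1 p (Finset.mem_insert_self _ _)]
    have h7 : ¬ Odd (ord (p.valuation K) y) := fun h => hpT ((hmem p).2 ⟨hpS, h⟩)
    rw [Int.not_odd_iff_even] at h7
    exact h7.add_odd odd_one
  · intro u hu
    rw [map_mul]
    exact (hsq u hu).mul (hδ3 u (Finset.mem_union_left _ hu))
  · intro s
    rw [map_mul]
    refine mul_pos (hy2 s) ?_
    have h3 := hδ4 s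
    rw [H38T1.si_sc s hδ0] at h3
    have h4 : s δ' ≠ 0 := (map_ne_zero s).2 hδ0
    by_contra h5
    have h6 : s δ' < 0 := lt_of_le_of_ne (not_lt.1 h5) h4
    have h7 : H38RT.sw s δ' = 1 := if_pos h6
    rw [h7] at h3
    exact one_ne_zero h3
  · intro v hv
    obtain ⟨-, r, hr0, hr⟩ := hy1 v (Finset.mem_union_right _ hv)
    rw [if_pos hv] at hr
    obtain ⟨z, hz⟩ := hδ3 v (Finset.mem_union_right _ hv)
    have hz0 : z ≠ 0 := by
      rintro rfl
      rw [mul_zero] at hz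
      exact (map_ne_zero (algebraMap K (v.adicCompletion K))).2 hδ0 hz
    refine ⟨r * z, mul_ne_zero hr0 hz0, ?_⟩
    rw [map_mul, hr, hz]
    ring
  · intro v h3 h4 h5
    rw [ord_mul hy0 hδ0]
    by_cases h6 : v ∈ Ty
    · have h7 := ((hmem v).1 h6).2
      rw [hδ1 v (Finset.mem_insert_of_mem h6)]
      exact h7.add_odd odd_one
    · have h7 : ord (v.valuation K) δ' = 0 := by
        have h8 := hδ2 v (by
          rw [Finset.mem_insert]
          rintro (h9 | h9)
          · exact h5 h9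
          · exact h6 h9) (by
          rw [Finset.mem_union]
          exact fun h => h.elim h3 h4)
        unfold ord
        rw [h8, log_one, neg_zero]
      rw [h7, add_zero]
      by_contra h8
      rw [Int.not_even_iff_odd] at h8
      exact h6 ((hmem v).2 ⟨by
        rw [Finset.mem_union]
        exact fun h => h.elim h3 h4, h8⟩)

end H38MR
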