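import Pool.Agent.H38.MR.Gc
import Pool.Agent.H26.MQ.Nb
import Pool.Agent.H26.MQ.Nl
import Pool.Agent.H76.GM.Ad
import Pool.Agent.H88.PL.Ps

/-!
MP_78d38b_MQ (helper38), N8: the criterion for finitely many twists.
-/

set_option autoImplicit false
set_option linter.unusedSectionVars false
open scoped Classical

open WithZero NumberField IsDedekindDomain H38RT
open H38T1 (SC sc scu rep eo la si OddP)
open H76PP (Cub LC ev scm dn)
open H30ZO (HH nb Wc Tv)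
open H30OR (LocD)
open H88OD (Ext ClOk selCard)
open H88PL (Ev)
open H26MQ

namespace H38MR

variable {K L : Type} [Field K] [NumberField K] [Field L] [NumberField L] [Algebra K L] {a b : K}
  {θ : L}

/-- The Selmer group depends only on the class modulo squares. -/
theorem V_sq (S : Ext K K L a b θ) {E E' : K} (hE : E ≠ 0) (hE' : E' ≠ 0)
    (h : IsSquare (E' / E)) (c : SC L) : S.V E c ↔ S.V E' c := by
  have h1 : ∀ s : K →+* ℝ, 0 < s (E' / E) := by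
    intro s
    obtain ⟨r, hr⟩ := h
    have hr0 : r ≠ 0 := by
      rintro rfl
      rw [mul_zero] at hr
      exact div_ne_zero hE' hE hr
    have h2 : s r ≠ 0 := (map_ne_zero s).2 hr0
    rw [hr, map_mul]
    exact mul_self_pos.2 h2
  constructor
  · rintro ⟨h2, h3, h4⟩
    exact ⟨h2, fun v => (Lv_tw S hE hE' (h.map _) c).1 (h3 v),
      fun s => (Lr_tw S hE hE' (h1 s) c).1 (h4 s)⟩
  · rintro ⟨h2, h3, h4⟩
    exact ⟨h2, fun v => (Lv_tw S hE hE' (h.map _) c).2 (h3 v),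
      fun s => (Lr_tw S hE hE' (h1 s) c).2 (h4 s)⟩

theorem sel_sq (S : Ext K K L a b θ) {E E' : K} (hE : E ≠ 0) (hE' : E' ≠ 0)
    (h : IsSquare (E' / E)) : selCard K (E ^ 2 * a) (E ^ 3 * b) =
      selCard K (E' ^ 2 * a) (E' ^ 3 * b) := by
  rw [← H88OD.card_V S hE, ← H88OD.card_V S hE']
  exact Nat.card_congr (Equiv.subtypeEquivRight fun c => V_sq S hE hE' h c)

theorem ev_sq (S : Ext K K L a b θ) {E E' : K} (hE : E ≠ 0) (hE' : E' ≠ 0)
    (h : IsSquare (E' / E)) : Ev a b E ↔ Ev a b E' := by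
  unfold Ev
  rw [sel_sq S hE hE' h]

theorem tv_sq (S : Ext K K L a b θ) {E E' : K} (hE : E ≠ 0) (hE' : E' ≠ 0)
    (h : IsSquare (E' / E)) (ht : Tv K (E ^ 2 * a) (E ^ 3 * b)) :
    Tv K (E' ^ 2 * a) (E' ^ 3 * b) :=
  H76GM.tv_of_V S hE' fun c hc => H76GM.V_of_tv S hE ht c ((V_sq S hE hE' h c).2 hc)

/-- **Sufficiency.** -/
theorem main_suf (S : Ext K K L a b θ) {D0 : K} (hD0 : D0 ≠ 0) {J : Type} [Finite J] {d : J → K}
    (hd : ∀ j, d j ≠ 0) (hinj : ∀ i j, i ≠ j → sc (d i) ≠ sc (d j))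
    (hev : ∀ j, Ev a b (d j * D0)) (S0 X : Finset (HeightOneSpectrum (𝓞 K))) :
    ∃ D : K, (D ≠ 0 ∧ (∀ u ∈ S0, IsSquare (algebraMap K (u.adicCompletion K) (D / D0))) ∧
      (∀ t : K →+* ℝ, 0 < t (D / D0)) ∧ ∀ j, Tv K ((d j * D) ^ 2 * a) ((d j * D) ^ 3 * b)) ∧
      ∃ q : HeightOneSpectrum (𝓞 K), q ∉ X ∧ Odd (ord (q.valuation K) D) := by
  obtain ⟨Sg, hle, ⟨N⟩⟩ := exists_NT S hD0 hd S0
  obtain ⟨s, h1, -, h2⟩ := sys_main (okk N) cc_one (cc_sep hinj) (by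
    intro j
    rw [card_R0, H88OD.card_V S (N.ok j).ne]
    exact hev j) ∅
  obtain ⟨D, p, h3, h4, h5, h6⟩ := exists_D N s h1 (Finset.finite_toSet X)
  refine ⟨D, ⟨h6.ne, fun u hu => h6.sq u (hle hu), h6.pos, fun j => ?_⟩, p,
    fun h => h4 (Finset.mem_coe.2 h), ?_⟩
  · refine H76GM.tv_of_V S (mul_ne_zero (hd j) h6.ne) fun c hc => ?_
    have h7 := (h6.V_iff j ⟨c, hc.hh⟩).1 hc
    rw [h2 j, AddSubgroup.mem_bot] at h7
    exact congrArg Subtype.val h7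
  · have e : D = D0 * (D / D0) := by field_simp
    rw [e, ord_mul hD0 (div_ne_zero h6.ne hD0), ord_one_val (N.ok0.val p h3), zero_add]
    exact h5

/-- **Necessity.** -/
theorem main_nec (S : Ext K K L a b θ) {D0 : K} (hD0 : D0 ≠ 0) {J : Type} [Finite J] {d : J → K}
    (hd : ∀ j, d j ≠ 0) : ∃ S0 : Finset (HeightOneSpectrum (𝓞 K)), ∀ D : K, D ≠ 0 →
      (∀ u ∈ S0, IsSquare (algebraMap K (u.adicCompletion K) (D / D0))) →
      (∀ t : K →+* ℝ, 0 < t (D / D0)) → (∀ j, Tv K ((d j * D) ^ 2 * a) ((d j * D) ^ 3 * b)) →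
      ∀ j, Ev a b (d j * D0) := by
  obtain ⟨Sg, -, ⟨N⟩⟩ := exists_NT S hD0 hd ∅
  refine ⟨Sg, fun D hD h1 h2 h3 j => ?_⟩
  have e : d j * D / (d j * D0) = D / D0 := mul_div_mul_left _ _ (hd j)
  have h4 := H88PL.par_sgn S (N.ok j) N.three (mul_ne_zero (hd j) hD) (fun v hv => by
    rw [e]
    exact h1 v hv)
  have h5 : IsEmpty {s : K →+* ℝ // s (d j * D / (d j * D0)) < 0} := by
    refine ⟨fun z => ?_⟩
    have h6 : z.1 (D / D0) < 0 := by
      rw [← e]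
      exact z.2
    exact absurd h6 (not_lt.2 (h2 z.1).le)
  rw [Nat.card_of_isEmpty] at h4
  refine (h4.2 ⟨0, rfl⟩).2 ⟨0, ?_⟩
  rw [pow_zero, ← H88OD.card_V S (mul_ne_zero (hd j) hD)]
  have h6 : ∀ c : SC L, S.V (d j * D) c ↔ c = 0 := by
    intro c
    refine ⟨H76GM.V_of_tv S (mul_ne_zero (hd j) hD) (h3 j) c, ?_⟩
    rintro rfl
    obtain ⟨V, hV⟩ := H88OD.exists_VG S (mul_ne_zero (hd j) hD)
    exact (hV 0).1 V.zero_mem
  rw [Nat.card_congr (Equiv.subtypeEquivRight h6)]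
  exact Nat.card_unique

/-- Representatives of the square classes. -/
theorem exists_rep {Δ : Set K} (hΔ : (sc '' Δ).Finite) (h0 : ∀ d ∈ Δ, d ≠ 0) :
    ∃ (J : Type) (_ : Finite J) (d : J → K), (∀ j, d j ∈ Δ) ∧
      (∀ i j, i ≠ j → sc (d i) ≠ sc (d j)) ∧ ∀ x ∈ Δ, ∃ j, IsSquare (x / d j) := by
  have hf : Finite (sc '' Δ : Set (SC K)) := hΔ
  have h1 : ∀ j : (sc '' Δ : Set (SC K)), ∃ x ∈ Δ, sc x = (j : SC K) := fun j => j.2
  choose d hd hs using h1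
  refine ⟨_, hf, d, hd, fun i j hij h => hij ?_, fun x hx => ⟨⟨sc x, x, hx, rfl⟩, ?_⟩⟩
  · rw [hs, hs] at h
    exact Subtype.ext h
  · have h2 := hs ⟨sc x, x, hx, rfl⟩
    have hd0 := h0 _ (hd ⟨sc x, x, hx, rfl⟩)
    have hx0 := h0 x hx
    have h3 : sc (x / d ⟨sc x, x, hx, rfl⟩) = 0 := by
      have e : sc x = sc (x / d ⟨sc x, x, hx, rfl⟩) + sc (d ⟨sc x, x, hx, rfl⟩) := by
        rw [← H38T1.sc_mul (div_ne_zero hx0 hd0) hd0, div_mul_cancel₀ _ hd0]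
      rw [h2] at e
      exact left_eq_add.1 (e.trans (add_comm _ _)) 
    exact (H38T1.sc_eq_zero (div_ne_zero hx0 hd0)).1 h3

end H38MR
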