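import Pool.Agent.H36.GM.Nt
import Pool.Agent.H36.GM.Ta

/-!
ROW Ta (project MP_78d38b_MQ, helper38, about 120 lines): the elements of `K` which become squares in the splitting field.

`N2` is the splitting field of the cubic `x^3 + a x + b` over `K`, with group the symmetric group (`H36GM.N2D K K N2 a b r`, the
structure of Pool/Agent/H76/GM/Df.lean for `N = K`).
PROOF. `Δ := -(4 a^3 + 27 b^2) = δ^2`, `δ := (r 0 - r 1) (r 1 - r 2) (r 2 - r 0)` (compare the coefficients in `D.roots`:
`r 0 + r 1 + r 2 = 0`, `r0 r1 + r1 r2 + r2 r0 = a`, `r0 r1 r2 = -b`; `Polynomial` identity at three values or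
`H36GM.roots_sym`, Pool/Agent/H36/GM/Bb.lean), `δ ≠ 0` (`D.inj`). For `σ` a permutation let `g σ` be the automorphism of
`D.lift 1 σ` (here `N = K`, `γ = 1`). `y^2 = x ∈ K`: `g y = y` or `g y = - y` for every `g`.
A 3-cycle `σ`: `g σ y = y`, because `g σ = (g σ')^2` on `y`-signs: `finRotate 3 = τ * τ` with `τ = finRotate 3 * finRotate 3`; by `D.gen` an
automorphism which is the identity on the roots is `1`, so `(g τ * g τ)⁻¹ * g (finRotate 3) = 1`.
All automorphisms `g` of `N2 / K` permute the roots (`D.roots` at `g (r m)`), so `g = g σ` for a permutation `σ` (`D.gen`). If `g y = y` for the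
transposition `(0 1)` then `y` is fixed by all of the group (generated by `(0 1)` and the 3-cycle; or by cases over the six permutations, `decide`),
so `y ∈ K` (`IsGalois.mem_bot_iff_fixed` or `D.gal`): `x` is a square. Otherwise `y δ` is fixed by all of the group: `x Δ = (y δ)^2` is a square in `K`.
Last statement: `scm`/`cl` of `c` vanishes iff a representative is a square in `N2` (`H38T1.sc_eq_zero`, `cl_sc`).
-/

set_option autoImplicit false
set_option linter.unusedSectionVars false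
open scoped Classical

open WithZero NumberField IsDedekindDomain H38RT
open H38T1 (SC sc scu rep eo la si OddP)
open H76PP (Cub LC ev scm dn)
open H88OD H26OD H76GM H36GM

namespace H38MR

private lemma TaEven : ∀ π : Equiv.Perm (Fin 3), Equiv.Perm.sign π = 1 →
    (π 0 = 0 ∧ π 1 = 1 ∧ π 2 = 2) ∨ (π 0 = 1 ∧ π 1 = 2 ∧ π 2 = 0) ∨
      (π 0 = 2 ∧ π 1 = 0 ∧ π 2 = 1) := by
  decide

private lemma TaOdd : ∀ π : Equiv.Perm (Fin 3), Equiv.Perm.sign π = -1 →
    (π 0 = 1 ∧ π 1 = 0 ∧ π 2 = 2) ∨ (π 0 = 2 ∧ π 1 = 1 ∧ π 2 = 0) ∨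
      (π 0 = 0 ∧ π 1 = 2 ∧ π 2 = 1) := by
  decide

private lemma TaCube : ∀ π : Equiv.Perm (Fin 3), Equiv.Perm.sign π = 1 → ∀ m, π (π (π m)) = m := by
  decide

private lemma TaSym {K N2 : Type} [Field K] [NumberField K] [Field N2] [NumberField N2] [Algebra K N2]
    {a b : K} {r : Fin 3 → N2} (D : N2D K K N2 a b r) :
    r 2 = - r 0 - r 1 ∧ algebraMap K N2 a = r 0 * r 1 + r 0 * r 2 + r 1 * r 2 ∧
      algebraMap K N2 b = - (r 0 * r 1 * r 2) := by
  have e0 := D.roots 0
  have e1 := D.roots 1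
  have e2 := D.roots (-1)
  have hs1 : r 0 + r 1 + r 2 = 0 := by
    have : (2 : N2) * (r 0 + r 1 + r 2) = 0 := by linear_combination e1 + e2 - 2 * e0
    simpa using this
  have hs2 : r 0 * r 1 + r 0 * r 2 + r 1 * r 2 = algebraMap K N2 a := by
    have : (2 : N2) * (r 0 * r 1 + r 0 * r 2 + r 1 * r 2 - algebraMap K N2 a) = 0 := by
      linear_combination e2 - e1
    have h := (mul_eq_zero.mp this).resolve_left two_ne_zero
    linear_combination h
  have hs3 : r 0 * r 1 * r 2 = -algebraMap K N2 b := by linear_combination e0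
  exact ⟨by linear_combination hs1, hs2.symm, by linear_combination hs3⟩

private lemma TaDisc {K N2 : Type} [Field K] [NumberField K] [Field N2] [NumberField N2] [Algebra K N2]
    {a b : K} {r : Fin 3 → N2} (D : N2D K K N2 a b r) :
    algebraMap K N2 (-(4 * a ^ 3 + 27 * b ^ 2)) =
      ((r 0 - r 1) * (r 0 - r 2) * (r 1 - r 2)) * ((r 0 - r 1) * (r 0 - r 2) * (r 1 - r 2)) := by
  obtain ⟨h2, ha, hb⟩ := TaSym D
  simp only [map_neg, map_add, map_mul, map_pow, map_ofNat]
  rw [ha, hb, h2]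
  ring

private lemma TaPerm {K N2 : Type} [Field K] [NumberField K] [Field N2] [NumberField N2] [Algebra K N2]
    {a b : K} {r : Fin 3 → N2} (D : N2D K K N2 a b r) (h : N2 ≃ₐ[K] N2) :
    ∃ π : Equiv.Perm (Fin 3), ∀ m, h (r m) = r (π m) := by
  have h1 : ∀ m, ∃ i, h (r m) = r i := by
    intro m
    have h0 : (r m) ^ 3 + algebraMap K N2 a * r m + algebraMap K N2 b = 0 := by
      rw [D.roots]
      fin_cases m <;> simp
    have h2 := congrArg h h0
    rw [map_add, map_add, map_mul, map_pow, h.commutes, h.commutes, map_zero, D.roots] at h2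
    rcases mul_eq_zero.1 h2 with h3 | h3
    · rcases mul_eq_zero.1 h3 with h3 | h3
      · exact ⟨0, sub_eq_zero.1 h3⟩
      · exact ⟨1, sub_eq_zero.1 h3⟩
    · exact ⟨2, sub_eq_zero.1 h3⟩
  choose q hq using h1
  have hqi : Function.Injective q := by
    intro i j hij
    apply D.inj
    apply h.injective
    rw [hq, hq, hij]
  exact ⟨Equiv.ofBijective q (Finite.injective_iff_bijective.1 hqi), hq⟩

theorem sq_N2 {K N2 : Type} [Field K] [NumberField K] [Field N2] [NumberField N2] [Algebra K N2]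
    {a b : K} {r : Fin 3 → N2} (D : N2D K K N2 a b r) {x : K} (hx : x ≠ 0)
    (h : IsSquare (algebraMap K N2 x)) : IsSquare x ∨ IsSquare (x * -(4 * a ^ 3 + 27 * b ^ 2)) := by
  obtain ⟨y, hy⟩ := h
  have hgal : IsGalois K N2 := D.gal
  have hfd3 : FiniteDimensional K N2 := Module.Finite.of_restrictScalars_finite ℚ K N2
  have hy0 : y ≠ 0 := by
    rintro rfl
    rw [mul_zero, map_eq_zero] at hy
    exact hx hy
  have hsign : ∀ g : N2 ≃ₐ[K] N2, g y = y ∨ g y = - y := by
    intro g
    have h1 := congrArg g hy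
    rw [g.commutes, map_mul, hy] at h1
    exact mul_self_eq_mul_self_iff.1 h1.symm
  have hyn : - y ≠ y := by
    intro h1
    have h2 : (2 : N2) * y = 0 := by linear_combination -h1
    rcases mul_eq_zero.1 h2 with h3 | h3
    · exact two_ne_zero h3
    · exact hy0 h3
  have heven : ∀ (g : N2 ≃ₐ[K] N2) (π : Equiv.Perm (Fin 3)), (∀ m, g (r m) = r (π m)) →
      Equiv.Perm.sign π = 1 → g y = y := by
    intro g π hg hπ
    have h1 : g * g * g = 1 := by
      refine D.gen _ (fun z => (g * g * g).commutes z) fun m => ?_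
      show g (g (g (r m))) = r m
      rw [hg, hg, hg, TaCube π hπ]
    have h2 : g (g (g y)) = y := by
      have h3 := congrArg (fun f : N2 ≃ₐ[K] N2 => f y) h1
      exact h3
    rcases hsign g with h3 | h3
    · exact h3
    · exfalso
      rw [h3, map_neg, h3, neg_neg, h3] at h2
      exact hyn h2
  by_cases hall : ∀ g : N2 ≃ₐ[K] N2, g y = y
  · left
    obtain ⟨d, hd⟩ := (IsGalois.mem_range_algebraMap_iff_fixed (F := K) (E := N2) y).2 hall
    refine ⟨d, (algebraMap K N2).injective ?_⟩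
    rw [hy, map_mul, hd]
  · right
    push Not at hall
    obtain ⟨g₀, hg₀⟩ := hall
    have hg₀' : g₀ y = - y := (hsign g₀).resolve_left hg₀
    obtain ⟨π₀, hπ₀⟩ := TaPerm D g₀
    have hodd₀ : Equiv.Perm.sign π₀ = -1 := by
      rcases Int.units_eq_one_or (Equiv.Perm.sign π₀) with h1 | h1
      · exact absurd (heven g₀ π₀ hπ₀ h1) hg₀
      · exact h1
    have hfix : ∀ g : N2 ≃ₐ[K] N2, g (y * ((r 0 - r 1) * (r 0 - r 2) * (r 1 - r 2))) =
        y * ((r 0 - r 1) * (r 0 - r 2) * (r 1 - r 2)) := by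
      intro g
      obtain ⟨π, hπ⟩ := TaPerm D g
      rcases Int.units_eq_one_or (Equiv.Perm.sign π) with h1 | h1
      · rw [map_mul, heven g π hπ h1, map_mul, map_mul, map_sub, map_sub, map_sub, hπ, hπ, hπ]
        rcases TaEven π h1 with ⟨p0, p1, p2⟩ | ⟨p0, p1, p2⟩ | ⟨p0, p1, p2⟩ <;> rw [p0, p1, p2]
        · ring
        · ring
      · have h2 : (g₀ * g) y = y := by
          refine heven (g₀ * g) (π₀ * π) (fun m => ?_) ?_
          · show g₀ (g (r m)) = r (π₀ (π m))
            rw [hπ, hπ₀]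
          · rw [Equiv.Perm.sign_mul, hodd₀, h1]
            rfl
        have h3 : g y = - y := by
          rcases hsign g with h4 | h4
          · exfalso
            have h5 : g₀ (g y) = y := h2
            rw [h4, hg₀'] at h5
            exact hyn h5
          · exact h4
        rw [map_mul, h3, map_mul, map_mul, map_sub, map_sub, map_sub, hπ, hπ, hπ]
        rcases TaOdd π h1 with ⟨p0, p1, p2⟩ | ⟨p0, p1, p2⟩ | ⟨p0, p1, p2⟩ <;> rw [p0, p1, p2] <;> ring
    obtain ⟨d, hd⟩ := (IsGalois.mem_range_algebraMap_iff_fixed (F := K) (E := N2) _).2 hfix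
    refine ⟨d, (algebraMap K N2).injective ?_⟩
    rw [map_mul, TaDisc D, hy, map_mul, hd]
    ring

/-- The classes of `K` which are trivial in `N2`. -/
theorem cl_N2 {K N2 : Type} [Field K] [NumberField K] [Field N2] [NumberField N2] [Algebra K N2]
    {a b : K} {r : Fin 3 → N2} (D : N2D K K N2 a b r) {c : SC K}
    (h : cl (algebraMap K N2) c = 0) : c = 0 ∨ c = sc (-(4 * a ^ 3 + 27 * b ^ 2)) := by
  obtain ⟨x, hx, rfl⟩ := H38T1.sc_surj c
  rw [cl_sc _ hx, H38T1.sc_eq_zero ((map_ne_zero _).2 hx)] at h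
  have hΔ : -(4 * a ^ 3 + 27 * b ^ 2) ≠ 0 := by
    intro h0
    have h1 := TaDisc D
    rw [h0, map_zero] at h1
    have h2 := mul_self_eq_zero.1 h1.symm
    rcases mul_eq_zero.1 h2 with h3 | h3
    · rcases mul_eq_zero.1 h3 with h3 | h3
      · exact absurd (D.inj (sub_eq_zero.1 h3)) (by decide)
      · exact absurd (D.inj (sub_eq_zero.1 h3)) (by decide)
    · exact absurd (D.inj (sub_eq_zero.1 h3)) (by decide)
  rcases sq_N2 D hx h with h1 | h1
  · left
    exact (H38T1.sc_eq_zero hx).2 h1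
  · right
    have h2 := (H38T1.sc_eq_zero (mul_ne_zero hx hΔ)).2 h1
    rw [H38T1.sc_mul hx hΔ] at h2
    have h3 : (sc (-(4 * a ^ 3 + 27 * b ^ 2)) : SC K) + sc (-(4 * a ^ 3 + 27 * b ^ 2)) = 0 := by
      rw [← two_nsmul]
      exact H38T1.SC.two_smul _
    calc sc x = sc x + (sc (-(4 * a ^ 3 + 27 * b ^ 2)) + sc (-(4 * a ^ 3 + 27 * b ^ 2))) := by
          rw [h3, add_zero]
      _ = (sc x + sc (-(4 * a ^ 3 + 27 * b ^ 2))) + sc (-(4 * a ^ 3 + 27 * b ^ 2)) := by
          rw [add_assoc]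
      _ = sc (-(4 * a ^ 3 + 27 * b ^ 2)) := by rw [h2, zero_add]

end H38MR
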