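import Pool.Agent.H38.MR.Ta
import Pool.Agent.H36.GM.Bb
import Pool.Agent.H76.OD.Ch

/-!
ROW Tb (project MP_78d38b_MQ, helper38, about 120 lines): an automorphism which is a 3-cycle on the roots, with given signs on square roots.

PROOF. As `H36GM.exists_tau` (Pool/Agent/H36/GM/Ta.lean) and the beginning of `H36GM.exists_q3` (Pool/Agent/H36/GM/Bz.lean), with `N = M = K`.
`D.lift 1 (finRotate 3)` gives `τ1 : N2 ≃ₐ[K] N2`; `τ0 := τ1 * (τ1 * (τ1 * τ1))`: `τ0 (r m) = r (m + 1)` and `τ0 y = y` if `y ^ 2 ∈ K` (copy from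
exists_q3: hsq0, hr0'). `Ta_lift` gives `T : E ≃ₐ[K] E` over `τ0`. `T (s d) = ± s d` for `d ∈ β` (`Ta_sign`): `T (s d) = Ta_sg (e0 d) (s d)`.
`exists_phi` (Pool/Agent/H36/GM/Ph.lean, as in exists_tau, with `ι := {d // d ∈ β}`) gives `φ' : SC N2 →+ ZMod 2` with
`φ' (sc (algebraMap K N2 d)) = e0 d + φ (sc d)` for `d ∈ β`: if `∑ α d sc (algebraMap K N2 d) = 0` then `∑ α d e0 d = 0` (`Ta_rel`, exactly as in exists_tau)
and `k := ∑_{α d ≠ 0} sc d ∈ SC K` has `cl (algebraMap K N2) k = 0` (`cl_sc`, `map_sum`), so `k = 0` or `k = sc Δ` (`cl_N2`), so `φ k = 0 = ∑ α d φ (sc d)`.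
`H30MQ.exists_sigma (K := N2) (L := E)` for `β.image (algebraMap (𝓞 K) (𝓞 N2))`, `s`, `φ'` gives `κ : E ≃ₐ[N2] E`. `τ x := T (κ x)`:
`τ (s d) = T (± s d) = Ta_sg (φ' ..) (Ta_sg (e0 d) (s d)) = Ta_sg (φ (sc d)) (s d)`.
-/

set_option autoImplicit false
set_option linter.unusedSectionVars false
open scoped Classical

open WithZero NumberField IsDedekindDomain H38RT
open H38T1 (SC sc scu rep eo la si OddP)
open H76PP (Cub LC ev scm dn)
open H88OD H26OD H76GM H36GM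

namespace H38MR

theorem tau3 {K N2 E : Type} [Field K] [NumberField K] [Field N2] [NumberField N2] [Field E]
    [NumberField E] [Algebra K N2] [Algebra K E] [Algebra N2 E] [IsScalarTower K N2 E]
    [IsGalois K E] {a b : K} {r : Fin 3 → N2} (D : N2D K K N2 a b r) (φ : SC K →+ ZMod 2)
    (hφ : φ (sc (-(4 * a ^ 3 + 27 * b ^ 2))) = 0) (β : Finset (𝓞 K)) (hβ : ∀ d ∈ β, d ≠ 0)
    (s : 𝓞 N2 → E) (hs : ∀ d ∈ β, s (algebraMap (𝓞 K) (𝓞 N2) d) ^ 2 = algebraMap K E (d : K)) :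
    ∃ τ : E ≃ₐ[K] E, (∀ m, τ (algebraMap N2 E (r m)) = algebraMap N2 E (r (m + 1))) ∧
      ∀ d ∈ β, τ (s (algebraMap (𝓞 K) (𝓞 N2) d)) = if φ (sc (d : K)) = 0 then
        s (algebraMap (𝓞 K) (𝓞 N2) d) else - s (algebraMap (𝓞 K) (𝓞 N2) d) := by
  have hgK : IsGalois K N2 := D.gal
  have hgE : IsGalois N2 E := IsGalois.tower_top_of_isGalois K N2 E
  obtain ⟨τ1, -, hτr⟩ := D.lift 1 (finRotate 3)
  have hτr' : ∀ m, τ1 (r m) = r (m + 1) := by
    intro m
    rw [hτr, finRotate_succ_apply]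
  obtain ⟨τ0, hτ0⟩ : ∃ τ0 : N2 ≃ₐ[K] N2, ∀ x, τ0 x = τ1 (τ1 (τ1 (τ1 x))) :=
    ⟨τ1 * (τ1 * (τ1 * τ1)), fun _ => rfl⟩
  have hsq0 : ∀ (y : N2) (x : K), y ^ 2 = algebraMap K N2 x → τ0 y = y := by
    intro y x hy
    have h2 : (τ1 y) ^ 2 = y ^ 2 := by
      rw [← map_pow, hy, AlgEquiv.commutes]
    rcases sq_eq_sq_iff_eq_or_eq_neg.1 h2 with h3 | h3
    · rw [hτ0, h3, h3, h3, h3]
    · rw [hτ0, h3, map_neg, h3, neg_neg, h3, map_neg, h3, neg_neg]
  have hr0' : ∀ m, τ0 (r m) = r (m + 1) := by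
    intro m
    rw [hτ0, hτr', hτr', hτr', hτr']
    congr 1
    revert m
    decide
  obtain ⟨T, hT⟩ := Ta_lift (E := E) τ0
  -- signs
  have he0 : ∀ d : {d // d ∈ β}, ∃ a : ZMod 2, T (s (algebraMap (𝓞 K) (𝓞 N2) d.1)) =
      Ta_sg a (s (algebraMap (𝓞 K) (𝓞 N2) d.1)) := by
    intro d
    apply Ta_sign
    rw [← map_pow, hs d.1 d.2, AlgEquiv.commutes]
  choose e0 he0 using he0
  have h2W : ∀ w : SC N2, w + w = 0 := by
    intro w
    rw [← two_nsmul]
    exact H38T1.SC.two_smul w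
  have hβK : ∀ d : {d // d ∈ β}, ((d.1 : 𝓞 K) : K) ≠ 0 := fun d h' =>
    hβ d.1 d.2 (RingOfIntegers.coe_injective (h'.trans (map_zero _).symm))
  -- the functional
  obtain ⟨φ', hφ'⟩ := exists_phi h2W (ι := {d // d ∈ β})
    (fun d => sc (algebraMap K N2 (d.1 : K))) (fun d => e0 d + φ (sc (d.1 : K))) (by
      intro α hα
      have h5 := Ta_rel τ0 hsq0 T hT
        (Finset.univ.filter fun d : {d // d ∈ β} => ¬ α d = 0) (fun d => d.1)
        (fun d _ => hβ d.1 d.2) (fun d => s (algebraMap (𝓞 K) (𝓞 N2) d.1))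
        (fun d _ => hs d.1 d.2) e0 (fun d _ => he0 d) (by
          rw [Finset.sum_filter]
          refine Eq.trans (Finset.sum_congr rfl fun d _ => ?_) hα
          by_cases h : α d = 0
          · rw [if_neg (not_not.2 h), if_pos h]
          · rw [if_pos h, if_neg h])
      rw [Finset.sum_filter] at h5
      have h6 : ∑ d, α d * e0 d = 0 := by
        rw [← h5]
        refine Finset.sum_congr rfl fun d _ => ?_
        rcases Ta_two (α d) with h | h
        · rw [h, zero_mul, if_neg (not_not.2 rfl)]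
        · rw [h, one_mul, if_pos (by decide)]
      have hcl : cl (algebraMap K N2) (∑ d : {d // d ∈ β},
          (if α d = 0 then (0 : SC K) else sc (d.1 : K))) = 0 := by
        refine Eq.trans ?_ hα
        unfold cl
        rw [map_sum]
        refine Finset.sum_congr rfl fun d _ => ?_
        by_cases h : α d = 0
        · rw [if_pos h, if_pos h, map_zero]
        · rw [if_neg h, if_neg h]
          exact cl_sc (algebraMap K N2) (hβK d)
      have h7 : φ (∑ d : {d // d ∈ β}, (if α d = 0 then (0 : SC K) else sc (d.1 : K))) = 0 := by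
        rcases cl_N2 D hcl with h | h
        · rw [h, map_zero]
        · rw [h, hφ]
      have h8 : ∑ d : {d // d ∈ β}, α d * φ (sc (d.1 : K)) = 0 := by
        rw [← h7, map_sum]
        refine Finset.sum_congr rfl fun d _ => ?_
        rcases Ta_two (α d) with h | h
        · rw [h, zero_mul, if_pos rfl, map_zero]
        · rw [h, one_mul, if_neg (by decide)]
      simp only [mul_add, Finset.sum_add_distrib]
      rw [h6, h8, add_zero])
  -- the correction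
  obtain ⟨κ, hκ⟩ := H30MQ.exists_sigma (K := N2) (L := E)
    (β.image (algebraMap (𝓞 K) (𝓞 N2))) (by
      intro d hd
      obtain ⟨x, hx, rfl⟩ := Finset.mem_image.1 hd
      intro h
      apply hβ x hx
      have h4 : ((algebraMap (𝓞 K) (𝓞 N2) x : 𝓞 N2) : N2) = 0 := by
        rw [h]
        exact map_zero _
      rw [Ta_coe] at h4
      exact RingOfIntegers.coe_injective (((map_eq_zero _).1 h4).trans (map_zero _).symm)) s (by
      intro d hd
      obtain ⟨x, hx, rfl⟩ := Finset.mem_image.1 hd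
      rw [hs x hx, Ta_coe]
      exact IsScalarTower.algebraMap_apply K N2 E (x : K)) φ'
  have hκ1 : ∀ d : {d // d ∈ β}, κ (s (algebraMap (𝓞 K) (𝓞 N2) d.1)) =
      Ta_sg (e0 d + φ (sc (d.1 : K))) (s (algebraMap (𝓞 K) (𝓞 N2) d.1)) := by
    intro d
    have h4 := hκ (algebraMap (𝓞 K) (𝓞 N2) d.1) (Finset.mem_image_of_mem _ d.2)
    rw [Ta_coe, hφ'] at h4
    exact h4
  obtain ⟨τ, hτ⟩ : ∃ τ : E ≃ₐ[K] E, ∀ x, τ x = T (κ x) :=
    ⟨(κ.restrictScalars K).trans T, fun x => rfl⟩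
  refine ⟨τ, ?_, ?_⟩
  · intro m
    rw [hτ, AlgEquiv.commutes, hT, hr0']
  · intro d hd
    rw [hτ, hκ1 ⟨d, hd⟩, Ta_sg_map, he0 ⟨d, hd⟩, Ta_sg_sg]
    have h11 : e0 ⟨d, hd⟩ + φ (sc (d : K)) + e0 ⟨d, hd⟩ = φ (sc (d : K)) := by
      have h12 : e0 ⟨d, hd⟩ + e0 ⟨d, hd⟩ = 0 := by
        rcases Ta_two (e0 ⟨d, hd⟩) with h | h <;> rw [h] <;> decide
      rw [add_right_comm, h12, zero_add]
    rw [h11]
    rfl

end H38MR
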