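import Pool.Agent.H26.MQ.Nc
import Pool.Agent.H30.OR.Te
import Pool.Agent.H36.MX.Fi

/-!
MP_78d38b_MQ (helper38): from primes which split completely with prescribed Legendre symbols to cheb1_FF.
-/

set_option autoImplicit false
set_option linter.unusedSectionVars false
open scoped Classical

open WithZero NumberField IsDedekindDomain H38RT
open H38T1 (SC sc scu rep eo la si OddP)
open H76PP (Cub LC ev scm dn)
open H30ZO (HH nb Wc)
open H30OR (LocD)
open H88OD (Ext ClOk)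
open H26MQ

namespace H38MR

/-- Squares at an odd place. -/
theorem mem_Sq_of {L : Type} [Field L] [NumberField L] {w : HeightOneSpectrum (𝓞 L)} (hw : OddP w)
    {c : SC L} (h0 : eo w c = 0) (h1 : la w c = 0) : c ∈ H30ZO.Sq w := by
  obtain ⟨x, hx, rfl⟩ := H38T1.sc_surj c
  rw [H38T1.eo_sc hx] at h0
  rw [H38T1.la_sc hw hx] at h1
  have hS : Sq (w.valuation L) (x * H38T1.unif w ^ (-ord (w.valuation L) x)) := by
    by_contra h2
    unfold lam at h1
    rw [if_neg h2] at h1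
    exact one_ne_zero h1
  have hπ := H38T1.unif_spec w
  have hπ0 : H38T1.unif w ≠ 0 := by
    intro h
    rw [h, map_zero] at hπ
    exact exp_ne_zero hπ.symm
  obtain ⟨k, hk⟩ : Even (ord (w.valuation L) x) := by
    rw [← ZMod.intCast_eq_zero_iff_even]
    exact h0
  obtain ⟨t, ht⟩ := hS
  set y : L := x * H38T1.unif w ^ (-ord (w.valuation L) x) with hy
  have hVy : w.valuation L y = 1 := by
    rw [hy, map_mul, map_zpow₀, hπ, H38RT.V_eq (V := w.valuation L) hx, ← exp_zsmul, ← exp_add,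
      smul_eq_mul]
    have e : -ord (w.valuation L) x + -ord (w.valuation L) x * -1 = 0 := by ring
    rw [e, exp_zero]
  have h4 : w.valuation L 4 = 1 := by
    have h : (4 : L) = 2 * 2 := by norm_num
    have h2 : w.valuation L 2 = 1 := hw
    rw [h, map_mul, h2, one_mul]
  have ht1 : w.valuation L (t ^ 2) = 1 := by
    have e : t ^ 2 = y - (y - t ^ 2) := by ring
    rw [e, Valuation.map_sub_eq_of_lt_left _ (by rw [hVy]; exact ht), hVy]
  obtain ⟨r, -, hr⟩ := H36CY.sq_near' w (y := y) (z := t ^ 2) (by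
    rw [map_mul, h4, one_mul, ht1]
    exact ht)
  rw [H30ZO.mem_Sq hx]
  have hxy : x = y * (H38T1.unif w ^ k) ^ 2 := by
    rw [hy, mul_assoc]
    have e1 : (H38T1.unif w) ^ (-ord (w.valuation L) x) * ((H38T1.unif w) ^ k) ^ 2 = 1 := by
      rw [← zpow_natCast, ← zpow_mul, ← zpow_add₀ hπ0]
      have : -ord (w.valuation L) x + k * ((2 : ℕ) : ℤ) = 0 := by
        push_cast
        omega
      rw [this, zpow_zero]
    rw [e1, mul_one]
  refine ⟨algebraMap L (w.adicCompletion L) (t * H38T1.unif w ^ k) * r, ?_⟩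
  rw [hxy, map_mul, hr, map_mul, map_pow, map_pow]
  ring

/-- The existence of primes with prescribed symbols (statement of the row of helper42, helper36). -/
def ChebP (K L : Type) [Field K] [NumberField K] [Field L] [NumberField L] [Algebra K L]
    (a b : K) (J : Type) (d : J → K) : Prop :=
  ∀ (H : Set (SC L)), H.Finite → (∀ x ∈ H, x ∈ HH K L) → ∀ χ : J → ZMod 2,
    (∀ T : Finset J, (IsSquare (∏ j ∈ T, d j) ∨
      IsSquare (-(4 * a ^ 3 + 27 * b ^ 2) * ∏ j ∈ T, d j)) → ∑ j ∈ T, χ j = 0) →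
    ∀ A₀ : Set (HeightOneSpectrum (𝓞 K)), A₀.Finite → ∃ v : HeightOneSpectrum (𝓞 K), v ∉ A₀ ∧
      (∃ e : Fin 3 → v.adicCompletion K, H30OR.R3 (algebraMap K (v.adicCompletion K) a)
        (algebraMap K (v.adicCompletion K) b) e) ∧
      (∀ t : HeightOneSpectrum (𝓞 L), dn K t = v → ∀ x ∈ H, eo t x = 0 ∧ la t x = 0) ∧
      ∀ j, la v (sc (d j)) = χ j

variable {K L : Type} [Field K] [NumberField K] [Field L] [NumberField L] [Algebra K L] {a b : K}
  {θ : L} {S : Ext K K L a b θ} {Sg : Finset (HeightOneSpectrum (𝓞 K))} {D0 : K} {J : Type}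
  {d : J → K}

theorem sc_prod {K : Type} [Field K] {J : Type} {d : J → K} (hd : ∀ j, d j ≠ 0) (T : Finset J) :
    sc (∏ j ∈ T, d j) = ∑ j ∈ T, sc (d j) := by
  induction T using Finset.induction_on with
  | empty =>
    rw [Finset.prod_empty, Finset.sum_empty]
    exact (H38T1.sc_eq_zero one_ne_zero).2 ⟨1, (one_mul 1).symm⟩
  | insert i T hi ih =>
    rw [Finset.prod_insert hi, Finset.sum_insert hi, ← ih]
    exact H38T1.sc_mul (hd i) (Finset.prod_ne_zero_iff.2 fun j _ => hd j)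

theorem cheb1_of (N : NT S Sg D0 d) (hCb : ChebP K L a b J d) (p : Pat K a b)
    (T : Finset (Q2 K L Sg)) (T1 : Finset (P3 K L Sg)) : ∃ v : P3 K L Sg, v ∉ T1 ∧
      (∀ x ∈ N.sys.FF T T1, N.sys.r1 v x = 0 ∧ N.sys.r2 v x = 0) ∧
      ∀ i j, N.sys.ep i v = N.sys.ep j v ↔ (i ∈ CC a b d p ↔ j ∈ CC a b d p) := by
  have hd : ∀ j, d j ≠ 0 := by
    intro j h
    have h1 := (N.ok j).ne
    rw [h, zero_mul] at h1
    exact h1 rfl
  have hΔ0 : -(4 * a ^ 3 + 27 * b ^ 2) ≠ 0 := neg_ne_zero.2 S.dne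
  have hfin := fin_FF N T T1
  have hHf : (Subtype.val '' (N.sys.FF T T1 : Set (HH K L))).Finite :=
    (Set.toFinite (N.sys.FF T T1 : Set (HH K L))).image _
  obtain ⟨v, h1, ⟨e, he⟩, h3, h4⟩ := hCb _ hHf (by
    rintro _ ⟨x, -, rfl⟩
    exact x.2) (fun j => p.1.1 (sc (d j))) (by
    intro T' h
    rw [← map_sum, ← sc_prod hd]
    have hP : (∏ j ∈ T', d j) ≠ 0 := Finset.prod_ne_zero_iff.2 fun j _ => hd j
    rcases h with h | h
    · rw [(H38T1.sc_eq_zero hP).2 h, map_zero]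
    · have h2 := (H38T1.sc_eq_zero (mul_ne_zero hΔ0 hP)).2 h
      rw [H38T1.sc_mul hΔ0 hP] at h2
      have h5 := congrArg p.1.1 h2
      rw [map_add, map_zero, p.1.2, zero_add] at h5
      exact h5) ((Sg : Set (HeightOneSpectrum (𝓞 K))) ∪ Subtype.val '' (T1 : Set (P3 K L Sg)))
    ((Finset.finite_toSet Sg).union ((Finset.finite_toSet T1).image _))
  have hvS : v ∉ Sg := fun h => h1 (Or.inl (Finset.mem_coe.2 h))
  have hodd : OddP v := N.ok0.two v hvS
  obtain ⟨A, hA⟩ := H76OD.Lt_int S.ha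
  obtain ⟨B, hB⟩ := H76OD.Lt_int S.hb
  have hdv := N.ok0.dis v hvS
  have hnb : nb K L v = 3 := by
    rw [← hA, ← hB] at he hdv
    exact H30OR.nb_eq3 (show Cub K L (A : K) (B : K) θ by rw [hA, hB]; exact S.cub) hdv he
  refine ⟨⟨v, hvS, hnb⟩, fun h => h1 (Or.inr ⟨_, h, rfl⟩), fun x hx => ?_, fun i j => ?_⟩
  · -- the classes are squares at the places above `v`
    have hsq : (x : SC L) ∈ H30ZO.Sqv K L v := by
      rw [H30ZO.mem_Sqv]
      intro t ht
      have h5 := h3 t ht (x : SC L) ⟨x, hx, rfl⟩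
      refine mem_Sq_of ?_ h5.1 h5.2
      have h6 := H76PP.val_one (L := L) (w := t) (K := K) (x := 2) (by rw [ht]; exact hodd)
      rw [map_ofNat] at h6
      exact h6
    have hW := H76OD.Wc_sq (show Cub K L a b θ from S.cub) v (S.ha v) (S.hb v) S.dne
      (N.pi0 v hvS) hsq
    have h5 := ((N.loc3 ⟨v, hvS, hnb⟩).hu (x : SC L) x.2).1 hW
    exact ⟨h5 0, h5 1⟩
  · change la v (sc (d i)) = la v (sc (d j)) ↔ (p.1.1 (sc (d i)) = p.2 ↔ p.1.1 (sc (d j)) = p.2)
    rw [h4, h4]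
    generalize p.1.1 (sc (d i)) = t1
    generalize p.1.1 (sc (d j)) = t2
    generalize p.2 = t3
    revert t1 t2 t3
    decide

end H38MR
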